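import Pool.Agent.helper44.U.Sheet
import Pool.Agent.helper50.EY.Cnt

set_option autoImplicit false
set_option linter.unusedSectionVars false
set_option linter.unusedSimpArgs false

/-!
# U-Count: lengths of the schemes `χ = F = φ_x = 0`
-/

namespace EY.UO

open MvPolynomial

noncomputable section

/-- the scheme of the ideal `I` is finite of length `n` -/
def FR {σ : Type} (I : Ideal (MvPolynomial σ ℂ)) (n : ℕ) : Prop :=
  Module.Finite ℂ (MvPolynomial σ ℂ ⧸ I) ∧ Module.finrank ℂ (MvPolynomial σ ℂ ⧸ I) = n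

variable {ι : Type} [Fintype ι] [DecidableEq ι]

/-- the system `χ, F, φ_x` -/
def q3 (χ F φ : MvPolynomial (Option (Option ι)) ℂ) : Option (Option ι) → MvPolynomial (Option (Option ι)) ℂ :=
  fun o => o.elim χ fun o' => o'.elim F fun i => pderiv (some (some i)) φ

/-- the ideal of `χ, F, φ_x` -/
def I3 (χ F φ : MvPolynomial (Option (Option ι)) ℂ) : Ideal (MvPolynomial (Option (Option ι)) ℂ) :=
  Ideal.span (Set.range (q3 χ F φ))

/-- the system `ρ - 1, ψ_x` -/
def qR (ρ ψ : MvPolynomial (Option ι) ℂ) : Option ι → MvPolynomial (Option ι) ℂ :=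
  fun o => o.elim (ρ - 1) fun i => pderiv (some i) ψ

theorem q3_update (χ F φ : MvPolynomial (Option (Option ι)) ℂ) :
    q3 χ F φ = Function.update (q3 χ 0 φ) (some none) F := by
  funext o
  rcases o with _ | _ | i
  · rw [Function.update_of_ne (by simp)]; rfl
  · rw [Function.update_self]; rfl
  · rw [Function.update_of_ne (by simp)]; rfl

theorem FR_mul {χ F G φ : MvPolynomial (Option (Option ι)) ℂ} {a b : ℕ} (hF : FR (I3 χ F φ) a)
    (hG : FR (I3 χ G φ) b) : FR (I3 χ (F * G) φ) (a + b) := by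
  unfold I3 at *
  rw [q3_update] at *
  obtain ⟨h1, h2⟩ := cnt_mul (q3 χ 0 φ) (some none) F G hF.1 hG.1
  exact ⟨h1, by rw [h2, hF.2, hG.2]⟩

theorem FR_pow {χ F φ : MvPolynomial (Option (Option ι)) ℂ} {a : ℕ} (hF : FR (I3 χ F φ) a) (k : ℕ) :
    FR (I3 χ (F ^ k) φ) (k * a) := by
  unfold I3 at *
  rw [q3_update] at *
  obtain ⟨h1, h2⟩ := cnt_pow (q3 χ 0 φ) (some none) F hF.1 k
  exact ⟨h1, by rw [h2, hF.2]⟩

theorem I3_unit {χ g a φ : MvPolynomial (Option (Option ι)) ℂ} (r : ℂ) (hr : r ≠ 0) (h : χ ∣ g - C r) :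
    I3 χ (g * a) φ = I3 χ a φ := by
  unfold I3
  rw [q3_update, q3_update χ a]
  refine cnt_unit (q3 χ 0 φ) (some none) g a r hr ?_
  obtain ⟨k, hk⟩ := h
  rw [hk]
  exact Ideal.mul_mem_right _ _ (Ideal.subset_span ⟨none, by simp, rfl⟩)

theorem I3_C_mul {χ F φ : MvPolynomial (Option (Option ι)) ℂ} (r : ℂ) (hr : r ≠ 0) :
    I3 χ (C r * F) φ = I3 χ F φ :=
  I3_unit r hr (by rw [sub_self]; exact dvd_zero _)

theorem I3_congr {χ F φ φ' : MvPolynomial (Option (Option ι)) ℂ}
    (h : ∀ i : ι, F ∣ pderiv (some (some i)) φ - pderiv (some (some i)) φ') : I3 χ F φ = I3 χ F φ' := by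
  have key : ∀ φ φ' : MvPolynomial (Option (Option ι)) ℂ,
      (∀ i : ι, F ∣ pderiv (some (some i)) φ - pderiv (some (some i)) φ') → I3 χ F φ ≤ I3 χ F φ' := by
    intro φ φ' h
    unfold I3
    rw [Ideal.span_le]
    rintro _ ⟨o, rfl⟩
    rcases o with _ | _ | i
    · exact Ideal.subset_span ⟨none, rfl⟩
    · exact Ideal.subset_span ⟨some none, rfl⟩
    · obtain ⟨k, hk⟩ := h i
      have h1 : q3 χ F φ (some (some i)) = F * k + pderiv (some (some i)) φ' := by
        rw [← hk]
        change pderiv (some (some i)) φ = _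
        ring
      rw [h1]
      exact Ideal.add_mem _ (Ideal.mul_mem_right _ _ (Ideal.subset_span ⟨some none, rfl⟩))
        (Ideal.subset_span ⟨some (some i), rfl⟩)
  apply le_antisymm (key φ φ' h)
  apply key
  intro i
  rw [dvd_sub_comm]
  exact h i

/-- weighted Bezout for the system `χ, F, φ_x` -/
theorem FR_bez {q : ℕ} (hq : 0 < q) {φ : MvPolynomial (Option (Option ι)) ℂ} (hφ : wh (vw ι) (q + 1) φ)
    (hndx : NDX φ) {χ χ' F : MvPolynomial (Option (Option ι)) ℂ} {a b n : ℕ} (ha : 0 < a) (hb : 0 < b)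
    (hχ' : wh (vw ι) a χ') (hχ : Top (vw ι) a χ χ') (hF : wh (vw ι) b F)
    (h0 : ∀ p : Option (Option ι) → ℂ, eval p χ' = 0 → eval p F = 0 → p none = 0 ∧ p (some none) = 0)
    (hn : a * b = 2 * n) : FR (I3 χ F φ) (n * q ^ Fintype.card ι) := by
  have hx : ∀ i : ι, wh (vw ι) q (pderiv (some (some i)) φ) := fun i => wh_pderiv hφ _ q rfl
  obtain ⟨h1, h2⟩ := wAff (σ := Option (Option ι)) (w := vw ι) (f := q3 χ F φ) (g := q3 χ' F φ)
    (d := fun o => o.elim a fun o' => o'.elim b fun _ => q)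
    (by intro i; rcases i with _ | i <;> simp [vw])
    (by intro i; rcases i with _ | _ | i <;> simp [ha, hb, hq])
    (by
      intro i
      rcases i with _ | _ | i
      · exact hχ'
      · exact hF
      · exact hx i)
    (by
      intro p hp
      obtain ⟨h3, h4⟩ := h0 p (hp none) (hp (some none))
      exact hndx p h3 h4 fun i => hp (some (some i)))
    (by
      intro i
      rcases i with _ | _ | i
      · exact hχ
      · exact Top.self (wh.wlt hF)
      · exact Top.self (wh.wlt (hx i)))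
  refine ⟨h1, ?_⟩
  rw [Fintype.prod_option, Fintype.prod_option, Fintype.prod_option, Fintype.prod_option] at h2
  simp only [vw, Option.elim, Finset.prod_const_one, mul_one, Finset.prod_const, Finset.card_univ] at h2
  have h3 : a * (b * q ^ Fintype.card ι) = 2 * (n * q ^ Fintype.card ι) := by
    rw [← mul_assoc, hn, mul_assoc]
  unfold I3
  omega

/-- elimination of `y` by the second equation `y = m` -/
theorem FR_elimF {χ ψ' : MvPolynomial (Option (Option ι)) ℂ} {m ψ : MvPolynomial (Option ι) ℂ} {n : ℕ}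
    (hψ : ∀ i, pderiv (some (some i)) ψ' = em (pderiv (some i) ψ))
    (h : FR (Ideal.span (Set.range fun o : Option ι => o.elim (elimY m χ) fun i => pderiv (some i) ψ)) n) :
    FR (I3 χ (Y ι - em m) ψ') n := by
  have h1 : I3 χ (Y ι - em m) ψ' = Ideal.span ({X (some none) - rename (Option.map some) m} ∪
      Set.range fun o : Option ι => o.elim χ fun i => em (pderiv (some i) ψ)) := by
    unfold I3
    congr 1
    ext z
    constructor
    · rintro ⟨o, rfl⟩
      rcases o with _ | _ | i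
      · exact Or.inr ⟨none, rfl⟩
      · exact Or.inl rfl
      · exact Or.inr ⟨some i, (hψ i).symm⟩
    · rintro (h | ⟨o, rfl⟩)
      · exact ⟨some none, h.symm⟩
      · rcases o with _ | i
        · exact ⟨none, rfl⟩
        · exact ⟨some (some i), hψ i⟩
  have h2 : (fun o : Option ι => elimY m ((fun o : Option ι => o.elim χ fun i => em (pderiv (some i) ψ)) o)) =
      fun o : Option ι => o.elim (elimY m χ) fun i => pderiv (some i) ψ := by
    funext o
    rcases o with _ | i
    · rfl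
    · exact elimY_rename m (pderiv (some i) ψ)
  refine ⟨?_, ?_⟩
  · rw [h1, cnt_elim_finite, h2]
    exact h.1
  · rw [h1, cnt_elim_finrank, h2]
    exact h.2

theorem I3_swap {χ F φ : MvPolynomial (Option (Option ι)) ℂ} : I3 χ F φ = I3 F χ φ := by
  unfold I3
  congr 1
  ext z
  constructor
  · rintro ⟨o, rfl⟩
    rcases o with _ | _ | i
    · exact ⟨some none, rfl⟩
    · exact ⟨none, rfl⟩
    · exact ⟨some (some i), rfl⟩
  · rintro ⟨o, rfl⟩
    rcases o with _ | _ | i
    · exact ⟨some none, rfl⟩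
    · exact ⟨none, rfl⟩
    · exact ⟨some (some i), rfl⟩

theorem span_elim_neg (a b : MvPolynomial (Option ι) ℂ) (hab : a = -b) (g : ι → MvPolynomial (Option ι) ℂ) :
    Ideal.span (Set.range fun o : Option ι => o.elim a g) = Ideal.span (Set.range fun o : Option ι => o.elim b g) := by
  have key : ∀ a b : MvPolynomial (Option ι) ℂ, a = -b →
      Ideal.span (Set.range fun o : Option ι => o.elim a g) ≤
        Ideal.span (Set.range fun o : Option ι => o.elim b g) := by
    intro a b hab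
    rw [Ideal.span_le]
    rintro _ ⟨o, rfl⟩
    rcases o with _ | i
    · change a ∈ _
      rw [hab]
      exact neg_mem (Ideal.subset_span ⟨none, rfl⟩)
    · exact Ideal.subset_span ⟨some i, rfl⟩
  exact le_antisymm (key a b hab) (key b a (by rw [hab, neg_neg]))

theorem em_one : em (1 : MvPolynomial (Option ι) ℂ) = 1 := map_one em

/-- in the chart `y = 1` a sheet `F` counts `F|_{y = 1} = 1 - ρ` -/
theorem FR_one {F φ : MvPolynomial (Option (Option ι)) ℂ} {ψ ρ : MvPolynomial (Option ι) ℂ} {n : ℕ}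
    (hφ : ∀ i : ι, F ∣ pderiv (some (some i)) φ - em (pderiv (some i) ψ)) (hF : elimY 1 F = 1 - ρ)
    (h : FR (Ideal.span (Set.range (qR ρ ψ))) n) : FR (I3 (Y ι - 1) F φ) n := by
  have h1 : I3 (Y ι - 1) F φ = I3 F (Y ι - em 1) (em ψ) := by
    rw [em_one, I3_swap (χ := F)]
    exact I3_congr fun i => by rw [pderiv_em_x]; exact hφ i
  rw [h1]
  refine FR_elimF (fun i => pderiv_em_x ψ i) ?_
  rw [hF, span_elim_neg (1 - ρ) (ρ - 1) (by ring)]
  exact h

/-- in the chart `y² - σ = 1` the sheet `y = m` counts `m² - σ` -/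
theorem FR_lin {φ : MvPolynomial (Option (Option ι)) ℂ} {ψ m : MvPolynomial (Option ι) ℂ} {n : ℕ}
    (hφ : ∀ i : ι, Y ι - em m ∣ pderiv (some (some i)) φ - em (pderiv (some i) ψ))
    (h : FR (Ideal.span (Set.range (qR (m ^ 2 - X none) ψ))) n) :
    FR (I3 (Y ι ^ 2 - Sg ι - 1) (Y ι - em m) φ) n := by
  have h1 : I3 (Y ι ^ 2 - Sg ι - 1) (Y ι - em m) φ = I3 (Y ι ^ 2 - Sg ι - 1) (Y ι - em m) (em ψ) :=
    I3_congr fun i => by rw [pderiv_em_x]; exact hφ i
  rw [h1]
  refine FR_elimF (fun i => pderiv_em_x ψ i) ?_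
  have h2 : elimY m (Y ι ^ 2 - Sg ι - 1) = m ^ 2 - X none - 1 := by
    simp only [map_sub, map_pow, elimY_y, elimY_none, map_one]
  rw [h2]
  exact h

/-- the automorphism `x ↦ -x` -/
def ngh : MvPolynomial (Option ι) ℂ →ₐ[ℂ] MvPolynomial (Option ι) ℂ :=
  aeval fun o => (-1 : MvPolynomial (Option ι) ℂ) ^ vx ι o * X o

theorem ngh_wh {n : ℕ} {ψ : MvPolynomial (Option ι) ℂ} (h : wh (vx ι) n ψ) : ngh ψ = (-1) ^ n * ψ := by
  unfold ngh
  rw [aeval_wh h, aeval_X_left_apply]

theorem ngh_ngh : (ngh (ι := ι)).comp ngh = AlgHom.id ℂ _ := by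
  apply MvPolynomial.algHom_ext
  intro o
  rw [AlgHom.comp_apply, ngh_wh (wh_X (vx ι) o), map_mul, ngh_wh (wh_X (vx ι) o), AlgHom.id_apply, map_pow,
    map_neg, map_one, ← mul_assoc, ← mul_pow]
  simp

def nge : MvPolynomial (Option ι) ℂ ≃ₐ[ℂ] MvPolynomial (Option ι) ℂ :=
  AlgEquiv.ofAlgHom ngh ngh ngh_ngh ngh_ngh

theorem span_range_unit {σ : Type} {κ : Type} (f g : κ → MvPolynomial σ ℂ) (u : κ → MvPolynomial σ ℂ)
    (hu : ∀ k, u k * u k = 1) (h : ∀ k, f k = u k * g k) :
    Ideal.span (Set.range f) = Ideal.span (Set.range g) := by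
  apply le_antisymm
  · rw [Ideal.span_le]
    rintro _ ⟨k, rfl⟩
    rw [h k]
    exact Ideal.mul_mem_left _ _ (Ideal.subset_span ⟨k, rfl⟩)
  · rw [Ideal.span_le]
    rintro _ ⟨k, rfl⟩
    have h1 : g k = u k * f k := by rw [h k, ← mul_assoc, hu, one_mul]
    rw [h1]
    exact Ideal.mul_mem_left _ _ (Ideal.subset_span ⟨k, rfl⟩)

/-- doubling: the scheme `l² = 1, ψ_x = 0` has twice the length of `l = 1, ψ_x = 0` -/
theorem FR_dbl {q n : ℕ} {ψ l : MvPolynomial (Option ι) ℂ} (hψ : wh (vx ι) (q + 1) ψ) (hl : wh (vx ι) 1 l)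
    (h : FR (Ideal.span (Set.range (qR l ψ))) n) : FR (Ideal.span (Set.range (qR (l ^ 2) ψ))) (2 * n) := by
  have hup : ∀ F : MvPolynomial (Option ι) ℂ, (fun o : Option ι => o.elim F fun i => pderiv (some i) ψ) =
      Function.update (qR l ψ) none F := by
    intro F
    funext o
    rcases o with _ | i
    · rw [Function.update_self]; rfl
    · rw [Function.update_of_ne (by simp)]; rfl
  have h1 : FR (Ideal.span (Set.range (Function.update (qR l ψ) none (l + 1)))) n := by
    obtain ⟨e⟩ := cnt_equiv (nge (ι := ι)) (qR l ψ)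
    have h2 : Ideal.span (Set.range fun i => nge (qR l ψ i)) =
        Ideal.span (Set.range (Function.update (qR l ψ) none (l + 1))) := by
      refine span_range_unit _ _ (fun o => o.elim (-1) fun _ => (-1) ^ q) ?_ ?_
      · intro o
        rcases o with _ | i
        · simp
        · simp only [Option.elim]
          rw [← mul_pow]; simp
      · intro o
        rcases o with _ | i
        · rw [Function.update_self]
          change ngh (l - 1) = -1 * (l + 1)
          rw [map_sub, ngh_wh hl, map_one]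
          ring
        · rw [Function.update_of_ne (by simp)]
          change ngh (pderiv (some i) ψ) = (-1) ^ q * pderiv (some i) ψ
          exact ngh_wh (wh_pderiv hψ _ q rfl)
    rw [h2] at e
    have := h.1
    exact ⟨Module.Finite.equiv e.toLinearEquiv, by rw [← e.toLinearEquiv.finrank_eq]; exact h.2⟩
  have h3 : FR (Ideal.span (Set.range (Function.update (qR l ψ) none (l - 1)))) n := by
    rw [← hup]; exact h
  obtain ⟨h4, h5⟩ := cnt_mul (qR l ψ) none (l - 1) (l + 1) h3.1 h1.1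
  have h6 : qR (l ^ 2) ψ = Function.update (qR l ψ) none ((l - 1) * (l + 1)) := by
    rw [← hup]
    unfold qR
    have : l ^ 2 - 1 = (l - 1) * (l + 1) := by ring
    rw [this]
  rw [h6]
  exact ⟨h4, by rw [h5, h3.2, h1.2]; ring⟩

/-- halving -/
theorem FR_half {q n : ℕ} {ψ l : MvPolynomial (Option ι) ℂ} (hψ : wh (vx ι) (q + 1) ψ) (hl : wh (vx ι) 1 l)
    (h : FR (Ideal.span (Set.range (qR (l ^ 2) ψ))) (2 * n)) : FR (Ideal.span (Set.range (qR l ψ))) n := by
  have h1 : Ideal.span (Set.range (qR (l ^ 2) ψ)) ≤ Ideal.span (Set.range (qR l ψ)) := by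
    rw [Ideal.span_le]
    rintro _ ⟨o, rfl⟩
    rcases o with _ | i
    · change l ^ 2 - 1 ∈ _
      have : l ^ 2 - 1 = (l + 1) * (l - 1) := by ring
      rw [this]
      exact Ideal.mul_mem_left _ _ (Ideal.subset_span ⟨none, rfl⟩)
    · exact Ideal.subset_span ⟨some i, rfl⟩
  have h2 : Module.Finite ℂ (MvPolynomial (Option ι) ℂ ⧸ Ideal.span (Set.range (qR l ψ))) := by
    have := h.1
    exact Module.Finite.of_surjective (Ideal.Quotient.factorₐ ℂ h1).toLinearMap
      (Ideal.Quotient.factor_surjective h1)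
  obtain ⟨h3, h4⟩ := FR_dbl hψ hl ⟨h2, rfl⟩
  exact ⟨h2, by have := h.2; omega⟩

end

end EY.UO
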