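import Pool.Agent.helper50.EY.ClassC

set_option autoImplicit false
set_option linter.unusedSectionVars false
set_option linter.unusedSimpArgs false

/-!
# U-Anti: formal antiderivatives, the chain rule, forms which carry a sheet

* `UO.anti v` : the formal antiderivative in the variable `v`
* `UO.chain` : the chain rule for substitutions
* `UO.sbY v` : the substitution `y ↦ v` in the variables `σ = none, y = some none, x_i = some (some i)`
* `UO.sheetB P v ρ = ∫_ρ^v P(σ; t, x) dt` with its derivatives.
-/

namespace EY.UO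

open MvPolynomial

noncomputable section

/-! ### formal antiderivative -/

section anti

variable {σ : Type*} [DecidableEq σ]

/-- the formal antiderivative with respect to the variable `v` -/
def anti (v : σ) : MvPolynomial σ ℂ →ₗ[ℂ] MvPolynomial σ ℂ :=
  (basisMonomials σ ℂ).constr ℂ fun s => monomial (s + Finsupp.single v 1) (((s v : ℂ) + 1)⁻¹)

theorem anti_one (v : σ) (s : σ →₀ ℕ) :
    anti v (monomial s (1 : ℂ)) = monomial (s + Finsupp.single v 1) (((s v : ℂ) + 1)⁻¹) := by
  have h := (basisMonomials σ ℂ).constr_basis ℂ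
    (fun s : σ →₀ ℕ => monomial (s + Finsupp.single v 1) (((s v : ℂ) + 1)⁻¹)) s
  rw [coe_basisMonomials] at h
  exact h

theorem anti_monomial (v : σ) (s : σ →₀ ℕ) (a : ℂ) :
    anti v (monomial s a) = monomial (s + Finsupp.single v 1) (a * ((s v : ℂ) + 1)⁻¹) := by
  have h : (monomial s a : MvPolynomial σ ℂ) = a • monomial s 1 := by
    rw [smul_monomial, smul_eq_mul, mul_one]
  rw [h, map_smul, anti_one, smul_monomial, smul_eq_mul]

theorem pderiv_anti (v : σ) (A : MvPolynomial σ ℂ) : pderiv v (anti v A) = A := by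
  induction A using MvPolynomial.induction_on' with
  | monomial s a =>
    rw [anti_monomial, pderiv_monomial]
    have h1 : (s + Finsupp.single v 1) - Finsupp.single v 1 = s := by
      ext j; simp
    have h2 : ((s v : ℂ) + 1) ≠ 0 := by exact_mod_cast Nat.succ_ne_zero (s v)
    rw [h1]
    congr 1
    rw [Finsupp.add_apply, Finsupp.single_eq_same]
    push_cast
    rw [mul_assoc, inv_mul_cancel₀ h2, mul_one]
  | add p q hp hq => rw [map_add, map_add, hp, hq]

theorem pderiv_anti_ne {u v : σ} (h : u ≠ v) (A : MvPolynomial σ ℂ) :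
    pderiv u (anti v A) = anti v (pderiv u A) := by
  induction A using MvPolynomial.induction_on' with
  | monomial s a =>
    rw [anti_monomial, pderiv_monomial, pderiv_monomial, anti_monomial]
    have h3 : (s + Finsupp.single v 1 : σ →₀ ℕ) u = s u := by
      rw [Finsupp.add_apply, Finsupp.single_eq_of_ne h, add_zero]
    have h4 : (s - Finsupp.single u 1 : σ →₀ ℕ) v = s v := by
      rw [Finsupp.tsub_apply, Finsupp.single_eq_of_ne (Ne.symm h), Nat.sub_zero]
    rw [h3, h4]
    rcases Nat.eq_zero_or_pos (s u) with hs | hs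
    · rw [hs, Nat.cast_zero, mul_zero, mul_zero, zero_mul, monomial_zero, monomial_zero]
    · have h5 : s + Finsupp.single v 1 - Finsupp.single u 1 = s - Finsupp.single u 1 + Finsupp.single v 1 := by
        ext j
        simp only [Finsupp.tsub_apply, Finsupp.add_apply]
        by_cases hj : j = u
        · subst hj
          simp only [Finsupp.single_eq_same]
          omega
        · rw [Finsupp.single_eq_of_ne hj]
          omega
      rw [h5]
      congr 1
      ring
  | add p q hp hq => rw [map_add, map_add, hp, hq, map_add, map_add]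

theorem wh_anti [Fintype σ] {w : σ → ℕ} {n : ℕ} {A : MvPolynomial σ ℂ} (h : wh w n A) (v : σ) (m : ℕ)
    (hm : n + w v = m) : wh w m (anti v A) := by
  have h1 : A = ∑ s ∈ A.support, monomial s (A.coeff s) := (support_sum_monomial_coeff A).symm
  rw [h1, map_sum]
  apply wh_sum
  intro s hs
  rw [anti_monomial]
  intro α hα
  rw [coeff_monomial] at hα
  have h2 : s + Finsupp.single v 1 = α := by
    by_contra h3
    exact hα (if_neg h3)
  rw [← h2, wd_add, wd_single, h s (mem_support_iff.mp hs), mul_one, hm]

end anti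

/-! ### chain rule -/

theorem chain {σ τ : Type*} [Fintype σ] (g : σ → MvPolynomial τ ℂ) (u : τ) (F : MvPolynomial σ ℂ) :
    pderiv u (aeval g F) = ∑ v, aeval g (pderiv v F) * pderiv u (g v) := by
  classical
  induction F using MvPolynomial.induction_on with
  | C a =>
    rw [aeval_C, MvPolynomial.algebraMap_eq, pderiv_C]
    symm
    apply Finset.sum_eq_zero
    intro v _
    rw [pderiv_C, map_zero, zero_mul]
  | add p q hp hq =>
    rw [map_add, map_add, hp, hq, ← Finset.sum_add_distrib]
    refine Finset.sum_congr rfl fun v _ => ?_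
    rw [map_add, map_add, add_mul]
  | mul_X p i hp =>
    rw [map_mul, aeval_X, Derivation.leibniz, hp]
    have h1 : ∀ v, aeval g (pderiv v (p * X i)) * pderiv u (g v) =
        g i * (aeval g (pderiv v p) * pderiv u (g v)) + (if v = i then aeval g p * pderiv u (g i) else 0) := by
      intro v
      rw [Derivation.leibniz, pderiv_X, smul_eq_mul, smul_eq_mul, map_add, map_mul, map_mul, aeval_X]
      by_cases hv : v = i
      · subst hv
        rw [Pi.single_eq_same, map_one, if_pos rfl]
        ring
      · rw [Pi.single_eq_of_ne (Ne.symm hv) , map_zero, if_neg hv]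
        ring
    rw [Finset.sum_congr rfl fun v _ => h1 v, Finset.sum_add_distrib, ← Finset.mul_sum,
      Finset.sum_ite_eq' Finset.univ i, if_pos (Finset.mem_univ i), smul_eq_mul, smul_eq_mul]
    ring

/-! ### the variables `σ, y, x` -/

variable {ι : Type} [Fintype ι] [DecidableEq ι]

/-- the embedding of the forms in `σ, x` into the forms in `σ, y, x` -/
def em : MvPolynomial (Option ι) ℂ →ₐ[ℂ] MvPolynomial (Option (Option ι)) ℂ := rename (Option.map some)

/-- the weights `2, 1, ..., 1` -/
def vx (ι : Type) : Option ι → ℕ := fun o => o.elim 2 fun _ => 1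

/-- the weights `2, k, 1, ..., 1` -/
def vt (ι : Type) (k : ℕ) : Option (Option ι) → ℕ := fun o => o.elim 2 fun o' => o'.elim k fun _ => 1

theorem em_inj_fun : Function.Injective (Option.map (some : ι → Option ι)) :=
  Option.map_injective (Option.some_injective ι)

@[simp] theorem em_none : em (X none : MvPolynomial (Option ι) ℂ) = X none := by
  unfold em; rw [rename_X]; rfl

@[simp] theorem em_some (i : ι) : em (X (some i) : MvPolynomial (Option ι) ℂ) = X (some (some i)) := by
  unfold em; rw [rename_X]; rfl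

@[simp] theorem em_C (c : ℂ) : em (C c : MvPolynomial (Option ι) ℂ) = C c := by
  unfold em; rw [rename_C]

theorem pderiv_em_y (ψ : MvPolynomial (Option ι) ℂ) : pderiv (some none) (em ψ) = 0 := by
  unfold em
  apply pderiv_eq_zero_of_notMem_vars
  intro hmem
  obtain ⟨o, _, ho⟩ := Finset.mem_image.mp (vars_rename (Option.map some) ψ hmem)
  rcases o with _ | o <;> simp at ho

theorem pderiv_em_x (ψ : MvPolynomial (Option ι) ℂ) (i : ι) :
    pderiv (some (some i)) (em ψ) = em (pderiv (some i) ψ) := by
  unfold em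
  have h3 : (some (some i) : Option (Option ι)) = Option.map some (some i) := rfl
  rw [h3, pderiv_rename em_inj_fun]

theorem pderiv_em_s (ψ : MvPolynomial (Option ι) ℂ) :
    pderiv none (em ψ) = em (pderiv none ψ) := by
  unfold em
  have h3 : (none : Option (Option ι)) = Option.map some none := rfl
  rw [h3, pderiv_rename em_inj_fun]

theorem wh_em {n : ℕ} {ψ : MvPolynomial (Option ι) ℂ} (h : wh (vx ι) n ψ) (k : ℕ) : wh (vt ι k) n (em ψ) := by
  have h1 : em ψ = aeval (fun o => em (X o)) ψ := by
    have : (em : MvPolynomial (Option ι) ℂ →ₐ[ℂ] _) = aeval fun o => em (X o) := by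
      apply MvPolynomial.algHom_ext
      intro o
      rw [aeval_X]
    exact AlgHom.congr_fun this ψ
  rw [h1]
  refine wh_aeval (v := vx ι) ?_ h
  intro o
  rcases o with _ | o
  · rw [em_none]; exact wh_X (vt ι k) none
  · rw [em_some]; exact wh_X (vt ι k) (some (some o))

/-- the substitution `y ↦ v` -/
def sbY (v : MvPolynomial (Option (Option ι)) ℂ) :
    MvPolynomial (Option (Option ι)) ℂ →ₐ[ℂ] MvPolynomial (Option (Option ι)) ℂ :=
  aeval fun o => o.elim (X none) fun o' => o'.elim v fun i => X (some (some i))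

@[simp] theorem sbY_s (v : MvPolynomial (Option (Option ι)) ℂ) : sbY v (X none) = X none := by
  unfold sbY; rw [aeval_X]; rfl

@[simp] theorem sbY_y (v : MvPolynomial (Option (Option ι)) ℂ) : sbY v (X (some none)) = v := by
  unfold sbY; rw [aeval_X]; rfl

@[simp] theorem sbY_x (v : MvPolynomial (Option (Option ι)) ℂ) (i : ι) :
    sbY v (X (some (some i))) = X (some (some i)) := by
  unfold sbY; rw [aeval_X]; rfl

@[simp] theorem sbY_C (v : MvPolynomial (Option (Option ι)) ℂ) (c : ℂ) : sbY v (C c) = C c := by
  unfold sbY; rw [aeval_C]; rfl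

@[simp] theorem sbY_em (v : MvPolynomial (Option (Option ι)) ℂ) (ψ : MvPolynomial (Option ι) ℂ) :
    sbY v (em ψ) = em ψ := by
  have : (sbY v).comp em = (em : MvPolynomial (Option ι) ℂ →ₐ[ℂ] _) := by
    apply MvPolynomial.algHom_ext
    intro o
    rcases o with _ | o
    · rw [AlgHom.comp_apply, em_none, sbY_s]
    · rw [AlgHom.comp_apply, em_some, sbY_x]
  exact AlgHom.congr_fun this ψ

theorem sbY_sub_dvd (v v' F : MvPolynomial (Option (Option ι)) ℂ) : v - v' ∣ sbY v F - sbY v' F := by
  rw [← Ideal.mem_span_singleton, ← Ideal.Quotient.eq]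
  have h : ((Ideal.Quotient.mkₐ ℂ (Ideal.span {v - v'})).comp (sbY v)) =
      ((Ideal.Quotient.mkₐ ℂ (Ideal.span {v - v'})).comp (sbY v')) := by
    apply MvPolynomial.algHom_ext
    intro o
    rcases o with _ | _ | i
    · simp
    · simp only [AlgHom.comp_apply, sbY_y, Ideal.Quotient.mkₐ_eq_mk]
      rw [Ideal.Quotient.eq, Ideal.mem_span_singleton]
    · simp
  exact AlgHom.congr_fun h F

theorem pderiv_sbY_y (v F : MvPolynomial (Option (Option ι)) ℂ) :
    pderiv (some none) (sbY v F) = sbY v (pderiv (some none) F) * pderiv (some none) v := by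
  unfold sbY
  rw [chain, Fintype.sum_option, Fintype.sum_option]
  have h1 : ∀ i : ι, pderiv (some none) (X (some (some i)) : MvPolynomial (Option (Option ι)) ℂ) = 0 := by
    intro i
    rw [pderiv_X, Pi.single_eq_of_ne (by simp)]
  have h2 : pderiv (some none) (X none : MvPolynomial (Option (Option ι)) ℂ) = 0 := by
    rw [pderiv_X, Pi.single_eq_of_ne (by simp)]
  simp only [Option.elim, h1, h2, mul_zero, Finset.sum_const_zero, zero_add, add_zero]

theorem pderiv_sbY_x (v F : MvPolynomial (Option (Option ι)) ℂ) (i : ι) :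
    pderiv (some (some i)) (sbY v F) = sbY v (pderiv (some (some i)) F) +
      sbY v (pderiv (some none) F) * pderiv (some (some i)) v := by
  unfold sbY
  rw [chain, Fintype.sum_option, Fintype.sum_option]
  have h1 : ∀ j : ι, pderiv (some (some i)) (X (some (some j)) : MvPolynomial (Option (Option ι)) ℂ) =
      if j = i then 1 else 0 := by
    intro j
    by_cases hj : j = i
    · subst hj
      rw [pderiv_X_self, if_pos rfl]
    · rw [if_neg hj, pderiv_X, Pi.single_eq_of_ne]
      simpa using fun h => hj h
  have h2 : pderiv (some (some i)) (X none : MvPolynomial (Option (Option ι)) ℂ) = 0 := by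
    rw [pderiv_X, Pi.single_eq_of_ne (by simp)]
  simp only [Option.elim, h1, h2, mul_zero, zero_add, mul_ite, mul_one, Finset.sum_ite_eq',
    Finset.mem_univ, if_true]
  ring

/-- `∫_ρ^v P(σ; t, x) dt` -/
def sheetB (P v : MvPolynomial (Option (Option ι)) ℂ) (ρ : MvPolynomial (Option ι) ℂ) :
    MvPolynomial (Option (Option ι)) ℂ :=
  sbY v (anti (some none) P) - sbY (em ρ) (anti (some none) P)

theorem pderiv_sheetB_y (P v : MvPolynomial (Option (Option ι)) ℂ) (ρ : MvPolynomial (Option ι) ℂ) :
    pderiv (some none) (sheetB P v ρ) = sbY v P * pderiv (some none) v := by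
  unfold sheetB
  rw [map_sub, pderiv_sbY_y, pderiv_sbY_y, pderiv_anti, pderiv_em_y, mul_zero, sub_zero]

theorem pderiv_sheetB_x {P v : MvPolynomial (Option (Option ι)) ℂ} {ρ : MvPolynomial (Option ι) ℂ}
    (hP : sbY (em ρ) P = 0) (hv : ∀ i : ι, pderiv (some (some i)) v = 0) (i : ι) :
    v - em ρ ∣ pderiv (some (some i)) (sheetB P v ρ) := by
  unfold sheetB
  rw [map_sub, pderiv_sbY_x, pderiv_sbY_x, pderiv_anti, hP, hv i, mul_zero, zero_mul, add_zero, add_zero]
  exact sbY_sub_dvd _ _ _

theorem wh_sbY {k n : ℕ} {v F : MvPolynomial (Option (Option ι)) ℂ} (hv : wh (vw ι) k v) (hF : wh (vt ι k) n F) :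
    wh (vw ι) n (sbY v F) := by
  unfold sbY
  refine wh_aeval (v := vt ι k) ?_ hF
  intro o
  rcases o with _ | _ | o
  · exact wh_X (vw ι) none
  · exact hv
  · exact wh_X (vw ι) (some (some o))

theorem vt_one : vt ι 1 = vw ι := by
  funext o
  rcases o with _ | _ | o <;> rfl

theorem wh_em1 {n : ℕ} {ψ : MvPolynomial (Option ι) ℂ} (h : wh (vx ι) n ψ) : wh (vw ι) n (em ψ) := by
  rw [← vt_one]; exact wh_em h 1

theorem wh_sheetB {k n m : ℕ} {P v : MvPolynomial (Option (Option ι)) ℂ} {ρ : MvPolynomial (Option ι) ℂ}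
    (hP : wh (vt ι k) n P) (hv : wh (vw ι) k v) (hρ : wh (vx ι) k ρ) (hm : n + k = m) :
    wh (vw ι) m (sheetB P v ρ) := by
  have h1 : wh (vt ι k) m (anti (some none) P) := wh_anti hP (some none) m hm
  exact wh_sub (wh_sbY hv h1) (wh_sbY (wh_em1 hρ) h1)

end

end EY.UO
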