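import Pool.Agent.helper44.U.Anti
import Pool.Agent.helper50.EY.Open

set_option autoImplicit false
set_option linter.unusedSectionVars false
set_option linter.unusedSimpArgs false

/-!
# U-Form: the general step `φ = ψ(σ; x) + ε B(σ; y, x)`, `B_y = A`, `A(0; y, 0) = a₀ y^q`
-/

namespace EY.UO

open MvPolynomial Filter Topology

noncomputable section

variable {ι : Type} [Fintype ι] [DecidableEq ι]

/-- the point `σ = s, y, x` -/
def pt3 (s y : ℂ) (x : ι → ℂ) : Option (Option ι) → ℂ := fun o => o.elim s fun o' => o'.elim y x

theorem eval_em (p : Option (Option ι) → ℂ) (ψ : MvPolynomial (Option ι) ℂ) :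
    eval p (em ψ) = eval (fun o : Option ι => p (Option.map some o)) ψ := by
  unfold em
  rw [eval_rename]
  rfl

theorem cont_pt3 {α : Type*} [TopologicalSpace α] {a b : α → ℂ} {c : α → ι → ℂ} (ha : Continuous a)
    (hb : Continuous b) (hc : Continuous c) (ψ : MvPolynomial (Option (Option ι)) ℂ) :
    Continuous fun z => eval (pt3 (a z) (b z) (c z)) ψ := by
  apply (MvPolynomial.continuous_eval ψ).comp
  apply continuous_pi
  intro i
  rcases i with _ | _ | i
  · exact ha
  · exact hb
  · exact (continuous_apply i).comp hc

theorem eval_scale {n : ℕ} {ψ : MvPolynomial (Option (Option ι)) ℂ} (h : wh (vw ι) n ψ) (c y : ℂ) (x : ι → ℂ) :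
    eval (pt3 0 (c * y) (c • x)) ψ = c ^ n * eval (pt3 0 y x) ψ := by
  have h1 := aeval_wh h c (pt3 0 y x)
  simp only [aeval_eq_eval] at h1
  refine Eq.trans ?_ h1
  congr 2
  funext i
  rcases i with _ | _ | i
  · simp [pt3, vw]
  · simp [pt3, vw]
  · simp [pt3, vw]

/-- nonsingularity of the form `ψ(0; x)` -/
def ND (ψ : MvPolynomial (Option ι) ℂ) : Prop :=
  ∀ p : Option ι → ℂ, p none = 0 → (∀ i, eval p (pderiv (some i) ψ) = 0) → p = 0

/-- nonsingularity of the form `φ(0; 0, x)` in the variables `x` -/
def NDX (φ : MvPolynomial (Option (Option ι)) ℂ) : Prop :=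
  ∀ p : Option (Option ι) → ℂ, p none = 0 → p (some none) = 0 →
    (∀ i, eval p (pderiv (some (some i)) φ) = 0) → p = 0

/-- the general step: openness -/
theorem step_open {q : ℕ} {ψ : MvPolynomial (Option ι) ℂ} (hψ : wh (vx ι) (q + 1) ψ) (hnd : ND ψ)
    {A B : MvPolynomial (Option (Option ι)) ℂ} (hB : wh (vw ι) (q + 1) B) (hAB : pderiv (some none) B = A)
    {a0 : ℂ} (ha0 : a0 ≠ 0) (hq : q ≠ 0) (hA0 : ∀ y : ℂ, eval (pt3 0 y 0) A = a0 * y ^ q) :
    ∀ᶠ ε in 𝓝 (0 : ℂ), ε ≠ 0 → NDX (em ψ + C ε * B) ∧ ND (em ψ + C ε * B) := by
  have hA : wh (vw ι) q A := by rw [← hAB]; exact wh_pderiv hB _ q rfl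
  have hBx : ∀ i : ι, wh (vw ι) q (pderiv (some (some i)) B) := fun i => wh_pderiv hB _ q rfl
  have hψx : ∀ i : ι, wh (vw ι) q (em (pderiv (some i) ψ)) := by
    intro i
    apply wh_em1
    exact wh_pderiv hψ _ q rfl
  have h0 : ∀ (y : ℂ) (x : ι → ℂ), (∀ i : ι, eval (pt3 0 y x) (em (pderiv (some i) ψ)) = 0) → x = 0 := by
    intro y x hx
    have h1 := hnd (fun o : Option ι => pt3 0 y x (Option.map some o)) rfl (by
      intro i
      rw [← eval_em]
      exact hx i)
    funext i
    exact congrFun h1 (some i)
  have h1 : ∀ᶠ t in 𝓝 (0 : ℂ), ∀ y : Option ι → ℂ, (∀ o : Option ι,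
      o.elim (eval (pt3 0 (y none) fun i => y (some i)) A)
        (fun i => eval (pt3 0 (y none) fun i => y (some i)) (em (pderiv (some i) ψ)) +
          t * eval (pt3 0 (y none) fun i => y (some i)) (pderiv (some (some i)) B)) = 0) → y = 0 := by
    refine open_zero (fun (o : Option ι) (t : ℂ) (y : Option ι → ℂ) =>
      o.elim (eval (pt3 0 (y none) fun i => y (some i)) A)
        (fun i => eval (pt3 0 (y none) fun i => y (some i)) (em (pderiv (some i) ψ)) +
          t * eval (pt3 0 (y none) fun i => y (some i)) (pderiv (some (some i)) B))) (fun _ => q) ?_ ?_ 0 ?_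
    · intro o
      have h3 : Continuous fun z : ℂ × (Option ι → ℂ) => (fun i => z.2 (some i) : ι → ℂ) := by fun_prop
      have h4 : Continuous fun z : ℂ × (Option ι → ℂ) => z.2 none := by fun_prop
      rcases o with _ | i
      · exact cont_pt3 continuous_const h4 h3 _
      · exact (cont_pt3 continuous_const h4 h3 _).add
          (continuous_fst.mul (cont_pt3 continuous_const h4 h3 _))
    · intro o t c y
      have h3 : (fun i => (c • y) (some i)) = c • fun i => y (some i) := rfl
      have h4 : (c • y) none = c * y none := rfl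
      rcases o with _ | i
      · simp only [Option.elim]
        rw [h3, h4]
        exact eval_scale hA c _ _
      · simp only [Option.elim]
        rw [h3, h4, eval_scale (hψx i), eval_scale (hBx i)]
        ring
    · intro y hy
      have h3 : (fun i => y (some i)) = (0 : ι → ℂ) := by
        apply h0 (y none)
        intro i
        have := hy (some i)
        simp only [Option.elim, zero_mul, add_zero] at this
        exact this
      have h4 := hy none
      simp only [Option.elim] at h4
      rw [h3, hA0] at h4
      have h5 : y none = 0 := by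
        rcases mul_eq_zero.mp h4 with h | h
        · exact absurd h ha0
        · exact pow_eq_zero_iff hq |>.mp h
      funext o
      rcases o with _ | i
      · exact h5
      · exact congrFun h3 i
  have h2 : ∀ᶠ t in 𝓝 (0 : ℂ), ∀ x : ι → ℂ, (∀ i : ι,
      eval (pt3 0 0 x) (em (pderiv (some i) ψ)) + t * eval (pt3 0 0 x) (pderiv (some (some i)) B) = 0) →
      x = 0 := by
    refine open_zero (fun (i : ι) (t : ℂ) (x : ι → ℂ) =>
      eval (pt3 0 0 x) (em (pderiv (some i) ψ)) +
          t * eval (pt3 0 0 x) (pderiv (some (some i)) B)) (fun _ => q) ?_ ?_ 0 ?_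
    · intro i
      exact (cont_pt3 continuous_const continuous_const continuous_snd _).add
          (continuous_fst.mul (cont_pt3 continuous_const continuous_const continuous_snd _))
    · intro i t c x
      have h3 := eval_scale (hψx i) c 0 x
      have h4 := eval_scale (hBx i) c 0 x
      rw [mul_zero] at h3 h4
      rw [h3, h4]
      ring
    · intro x hx
      apply h0 0
      intro i
      have := hx i
      simp only [zero_mul, add_zero] at this
      exact this
  filter_upwards [h1, h2] with ε h3 h4 hε
  have hpx : ∀ i : ι, pderiv (some (some i)) (em ψ + C ε * B) =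
      em (pderiv (some i) ψ) + C ε * pderiv (some (some i)) B := by
    intro i
    rw [map_add, pderiv_em_x, pderiv_C_mul]
  have hpy : pderiv (some none) (em ψ + C ε * B) = C ε * A := by
    rw [map_add, pderiv_em_y, pderiv_C_mul, hAB, zero_add]
  have heta : ∀ p : Option (Option ι) → ℂ, p none = 0 → p = pt3 0 (p (some none)) fun i => p (some (some i)) := by
    intro p hp
    funext o
    rcases o with _ | _ | o
    · exact hp
    · rfl
    · rfl
  refine ⟨?_, ?_⟩
  · intro p hp hp' hx
    have h5 := heta p hp
    rw [hp'] at h5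
    have h6 : (fun i => p (some (some i))) = (0 : ι → ℂ) := by
      apply h4
      intro i
      have h7 := hx i
      rw [hpx, map_add, map_mul, eval_C] at h7
      rw [← h5]
      exact h7
    funext o
    rcases o with _ | _ | o
    · exact hp
    · exact hp'
    · exact congrFun h6 o
  · intro p hp hx
    have h5 := heta p hp
    have h6 : (fun o => p (some o)) = (0 : Option ι → ℂ) := by
      apply h3
      intro o
      rcases o with _ | i
      · simp only [Option.elim]
        have h7 := hx none
        rw [hpy, map_mul, eval_C] at h7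
        rw [← h5]
        exact (mul_eq_zero.mp h7).resolve_left hε
      · simp only [Option.elim]
        have h7 := hx (some i)
        rw [hpx, map_add, map_mul, eval_C] at h7
        rw [← h5]
        exact h7
    funext o
    rcases o with _ | o
    · exact hp
    · exact congrFun h6 o

end

end EY.UO
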