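import Pool.Agent.helper44.U.Count
import Pool.Agent.helper5.EY.St

set_option autoImplicit false
set_option linter.unusedSectionVars false
set_option linter.unusedSimpArgs false

/-!
# U-Odd: all states `E ≤ q^(K+1)/2` for `q` odd
-/

namespace EY.UO

open MvPolynomial

noncomputable section

variable {ι : Type} [Fintype ι] [DecidableEq ι]

/-- quadratic elimination (hypothesis, proved in `helper50/EY/Cnt2`) -/
def C2q (ι : Type) : Prop :=
  ∀ (c : MvPolynomial (Option ι) ℂ) (g : Option ι → MvPolynomial (Option ι) ℂ) (n : ℕ),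
    FR (Ideal.span (Set.range g)) n →
    FR (Ideal.span ({X (some none) ^ 2 - em c} ∪ Set.range fun o => em (g o))) (2 * n)

theorem FR_quad (hc : C2q ι) {φ : MvPolynomial (Option (Option ι)) ℂ} {ψ R : MvPolynomial (Option ι) ℂ} {n : ℕ}
    (hφ : ∀ i : ι, Y ι ^ 2 - em R ∣ pderiv (some (some i)) φ - em (pderiv (some i) ψ))
    (h : FR (Ideal.span (Set.range (qR (R - X none) ψ))) n) :
    FR (I3 (Y ι ^ 2 - Sg ι - 1) (Y ι ^ 2 - em R) φ) (2 * n) := by
  have h1 : I3 (Y ι ^ 2 - Sg ι - 1) (Y ι ^ 2 - em R) φ = I3 (Y ι ^ 2 - Sg ι - 1) (Y ι ^ 2 - em R) (em ψ) :=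
    I3_congr fun i => by rw [pderiv_em_x]; exact hφ i
  have h2 : I3 (Y ι ^ 2 - Sg ι - 1) (Y ι ^ 2 - em R) (em ψ) =
      Ideal.span ({X (some none) ^ 2 - em (X none + 1)} ∪ Set.range fun o => em (qR (R - X none) ψ o)) := by
    have e1 : em (X none + 1 : MvPolynomial (Option ι) ℂ) = Sg ι + 1 := by
      rw [map_add, em_none, map_one]
    have e2 : em (R - X none - 1) = em R - Sg ι - 1 := by
      rw [map_sub, map_sub, em_none, map_one]
    unfold I3
    apply le_antisymm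
    · rw [Ideal.span_le]
      rintro _ ⟨o, rfl⟩
      have m1 : X (some none) ^ 2 - em (X none + 1 : MvPolynomial (Option ι) ℂ) ∈
          Ideal.span ({X (some none) ^ 2 - em (X none + 1)} ∪ Set.range fun o => em (qR (R - X none) ψ o)) :=
        Ideal.subset_span (Or.inl rfl)
      have m2 : em (R - X none - 1) ∈
          Ideal.span ({X (some none) ^ 2 - em (X none + 1)} ∪ Set.range fun o => em (qR (R - X none) ψ o)) :=
        Ideal.subset_span (Or.inr ⟨none, rfl⟩)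
      rcases o with _ | _ | i
      · change Y ι ^ 2 - Sg ι - 1 ∈ _
        have : Y ι ^ 2 - Sg ι - 1 = X (some none) ^ 2 - em (X none + 1 : MvPolynomial (Option ι) ℂ) := by
          rw [e1]; ring
        rw [this]
        exact m1
      · change Y ι ^ 2 - em R ∈ _
        have : Y ι ^ 2 - em R = (X (some none) ^ 2 - em (X none + 1 : MvPolynomial (Option ι) ℂ)) -
            em (R - X none - 1) := by
          rw [e1, e2]; ring
        rw [this]
        exact sub_mem m1 m2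
      · change pderiv (some (some i)) (em ψ) ∈ _
        rw [pderiv_em_x]
        exact Ideal.subset_span (Or.inr ⟨some i, rfl⟩)
    · rw [Ideal.span_le]
      have m1 : Y ι ^ 2 - Sg ι - 1 ∈
          Ideal.span (Set.range (q3 (Y ι ^ 2 - Sg ι - 1) (Y ι ^ 2 - em R) (em ψ))) :=
        Ideal.subset_span ⟨none, rfl⟩
      have m2 : Y ι ^ 2 - em R ∈
          Ideal.span (Set.range (q3 (Y ι ^ 2 - Sg ι - 1) (Y ι ^ 2 - em R) (em ψ))) :=
        Ideal.subset_span ⟨some none, rfl⟩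
      rintro z (hz | ⟨o, rfl⟩)
      · rw [Set.mem_singleton_iff.mp hz]
        have : X (some none) ^ 2 - em (X none + 1 : MvPolynomial (Option ι) ℂ) = Y ι ^ 2 - Sg ι - 1 := by
          rw [e1]; ring
        rw [this]
        exact m1
      · rcases o with _ | i
        · change em (R - X none - 1) ∈ _
          have : em (R - X none - 1) = (Y ι ^ 2 - Sg ι - 1) - (Y ι ^ 2 - em R) := by
            rw [e2]; ring
          rw [this]
          exact sub_mem m1 m2
        · change em (pderiv (some i) ψ) ∈ _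
          rw [← pderiv_em_x]
          exact Ideal.subset_span ⟨some (some i), rfl⟩
  rw [h1, h2]
  exact hc _ _ _ h

/-- the chart `y = 1` and the number `E` -/
theorem st_of {q E : ℕ} {φ : MvPolynomial (Option (Option ι)) ℂ} (hφ : wh (vw ι) (q + 1) φ) (hndx : NDX φ)
    (hnd : ND φ) (h : FR (I3 (Y ι - 1) (pderiv (some none) φ) φ) E) : St ι q E φ := by
  have h1 : I3 (Y ι - 1) (pderiv (some none) φ) φ =
      Ideal.span ({X (some none) - rename (Option.map some) (1 : MvPolynomial (Option ι) ℂ)} ∪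
        Set.range fun o : Option ι => pderiv (some o) φ) := by
    have e1 : rename (Option.map some) (1 : MvPolynomial (Option ι) ℂ) = (1 : MvPolynomial (Option (Option ι)) ℂ) :=
      map_one _
    unfold I3
    congr 1
    ext z
    rw [e1]
    constructor
    · rintro ⟨o, rfl⟩
      rcases o with _ | _ | i
      · exact Or.inl rfl
      · exact Or.inr ⟨none, rfl⟩
      · exact Or.inr ⟨some i, rfl⟩
    · rintro (h | ⟨o, rfl⟩)
      · exact ⟨none, h.symm⟩
      · rcases o with _ | i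
        · exact ⟨some none, rfl⟩
        · exact ⟨some (some i), rfl⟩
  have h2 : (fun o : Option ι => elimY 1 (pderiv (some o) φ)) = critOne φ := rfl
  obtain ⟨h3, h4⟩ := h
  rw [h1, cnt_elim_finite, h2] at h3
  rw [h1, cnt_elim_finrank, h2] at h4
  exact ⟨hφ, hndx, hnd, h3, h4⟩

/-- the chart `y = 1`, backwards -/
theorem of_st {q E : ℕ} {φ : MvPolynomial (Option (Option ι)) ℂ} (h : St ι q E φ) :
    FR (I3 (Y ι - 1) (pderiv (some none) φ) φ) E := by
  have h1 : I3 (Y ι - 1) (pderiv (some none) φ) φ =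
      Ideal.span ({X (some none) - rename (Option.map some) (1 : MvPolynomial (Option ι) ℂ)} ∪
        Set.range fun o : Option ι => pderiv (some o) φ) := by
    have e1 : rename (Option.map some) (1 : MvPolynomial (Option ι) ℂ) = (1 : MvPolynomial (Option (Option ι)) ℂ) :=
      map_one _
    unfold I3
    congr 1
    ext z
    rw [e1]
    constructor
    · rintro ⟨o, rfl⟩
      rcases o with _ | _ | i
      · exact Or.inl rfl
      · exact Or.inr ⟨none, rfl⟩
      · exact Or.inr ⟨some i, rfl⟩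
    · rintro (h | ⟨o, rfl⟩)
      · exact ⟨none, h.symm⟩
      · rcases o with _ | i
        · exact ⟨some none, rfl⟩
        · exact ⟨some (some i), rfl⟩
  have h2 : (fun o : Option ι => elimY 1 (pderiv (some o) φ)) = critOne φ := rfl
  constructor
  · rw [h1, cnt_elim_finite, h2]
    exact h.fin
  · rw [h1, cnt_elim_finrank, h2]
    exact h.len

/-- the first factor in the chart `y = 1` -/
theorem bez_one {q : ℕ} (hq : 0 < q) {φ : MvPolynomial (Option (Option ι)) ℂ} (hφ : wh (vw ι) (q + 1) φ)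
    (hndx : NDX φ) : FR (I3 (Y ι - 1) (Y ι ^ 2 - Sg ι) φ) (q ^ Fintype.card ι) := by
  have h1 := FR_bez hq hφ hndx (χ := Y ι - 1) (χ' := Y ι) (F := Y ι ^ 2 - Sg ι) (a := 1) (b := 2) (n := 1)
    one_pos two_pos (wh_X (vw ι) (some none))
    ((Top.X (vw ι) (some none)).add_lo (f' := -1) (wlt_neg (wh_one (vw ι)).wlt) |> fun h => by
      rw [← sub_eq_add_neg] at h; exact h)
    (wh_sub (wh_pow (wh_X (vw ι) (some none)) 2) (wh_X (vw ι) none))
    (by
      intro p h2 h3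
      simp only [map_sub, map_pow, eval_X] at h2 h3
      rw [h2] at h3
      refine ⟨?_, h2⟩
      linear_combination -h3)
    rfl
  rwa [one_mul] at h1

/-- the first factor in the chart `y² - σ = 1` -/
theorem bez_quad {q : ℕ} (hq : 0 < q) {φ : MvPolynomial (Option (Option ι)) ℂ} (hφ : wh (vw ι) (q + 1) φ)
    (hndx : NDX φ) : FR (I3 (Y ι ^ 2 - Sg ι - 1) (Y ι) φ) (q ^ Fintype.card ι) := by
  have h0 : wh (vw ι) 2 (Y ι ^ 2 - Sg ι) := wh_sub (wh_pow (wh_X (vw ι) (some none)) 2) (wh_X (vw ι) none)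
  have h1 := FR_bez hq hφ hndx (χ := Y ι ^ 2 - Sg ι - 1) (χ' := Y ι ^ 2 - Sg ι) (F := Y ι) (a := 2) (b := 1)
    (n := 1) two_pos one_pos h0
    ((Top.self h0.wlt).add_lo (f' := -1) (wlt_mono (by norm_num) (wlt_neg (wh_one (vw ι)).wlt)) |> fun h => by
      rw [← sub_eq_add_neg] at h; exact h)
    (wh_X (vw ι) (some none))
    (by
      intro p h2 h3
      simp only [map_sub, map_pow, eval_X] at h2 h3
      rw [h3] at h2
      refine ⟨?_, h3⟩
      linear_combination -h2)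
    rfl
  rwa [one_mul] at h1

/-- (T1) -/
theorem t1 {q m r e : ℕ} (hq : q = 2 * m + 2 * r + 3) {ψ : MvPolynomial (Option ι) ℂ}
    (hψ : wh (vx ι) (q + 1) ψ) (hnd : ND ψ) {R : MvPolynomial (Option ι) ℂ} (hR : wh (vx ι) 2 R)
    (he : FR (Ideal.span (Set.range (qR R ψ))) e) : ∃ φ, St ι q (r * q ^ Fintype.card ι + e) φ := by
  obtain ⟨φ, hφ⟩ := form1 hq hψ hnd hR
  refine ⟨φ, st_of hφ.whφ hφ.ndx hφ.nd ?_⟩
  obtain ⟨ε, hε, hy⟩ := hφ.py
  rw [hy, I3_C_mul ε hε, mul_assoc, I3_unit 1 one_ne_zero (by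
    rw [C_1]; exact sub_one_dvd_pow_sub_one _ _)]
  refine FR_mul (FR_pow (bez_one (by omega) hφ.whφ hφ.ndx) r) (FR_one hφ.px ?_ he)
  simp only [map_sub, map_pow, elimY_y, one_pow]
  congr 1
  exact elimY_rename 1 R

/-- (T1') -/
theorem t1' {q r e : ℕ} (hq : q = 2 * r + 1) {ψ : MvPolynomial (Option ι) ℂ}
    (hψ : wh (vx ι) (q + 1) ψ) (hnd : ND ψ) {l : MvPolynomial (Option ι) ℂ} (hl : wh (vx ι) 1 l)
    (he : FR (Ideal.span (Set.range (qR l ψ))) e) : ∃ φ, St ι q (r * q ^ Fintype.card ι + e) φ := by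
  obtain ⟨φ, hφ⟩ := form2 hq hψ hnd hl
  refine ⟨φ, st_of hφ.whφ hφ.ndx hφ.nd ?_⟩
  obtain ⟨ε, hε, hy⟩ := hφ.py
  rw [hy, I3_C_mul ε hε]
  refine FR_mul (FR_pow (bez_one (by omega) hφ.whφ hφ.ndx) r) (FR_one hφ.px ?_ he)
  simp only [map_sub, elimY_y]
  congr 1
  exact elimY_rename 1 l

/-- (T2) -/
theorem t2 (hc : C2q ι) {q m r e : ℕ} (hq : q = 2 * m + 2 * r + 3) {ψ : MvPolynomial (Option ι) ℂ}
    (hψ : wh (vx ι) (q + 1) ψ) (hnd : ND ψ) {R : MvPolynomial (Option ι) ℂ} (hR : wh (vx ι) 2 R)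
    (he : FR (Ideal.span (Set.range (qR (R - X none) ψ))) e) :
    ∃ φ, wh (vw ι) (q + 1) φ ∧ NDX φ ∧ ND φ ∧
      FR (I3 (Y ι ^ 2 - Sg ι - 1) (pderiv (some none) φ) φ) ((2 * m + 1) * q ^ Fintype.card ι + 2 * e) := by
  obtain ⟨φ, hφ⟩ := form1 hq hψ hnd hR
  refine ⟨φ, hφ.whφ, hφ.ndx, hφ.nd, ?_⟩
  obtain ⟨ε, hε, hy⟩ := hφ.py
  have h1 : Y ι ^ (2 * m + 1) * (Y ι ^ 2 - Sg ι) ^ r * (Y ι ^ 2 - em R) =
      (Y ι ^ 2 - Sg ι) ^ r * (Y ι ^ (2 * m + 1) * (Y ι ^ 2 - em R)) := by ring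
  rw [hy, I3_C_mul ε hε, h1, I3_unit 1 one_ne_zero (by
    rw [C_1]; exact sub_one_dvd_pow_sub_one _ _)]
  exact FR_mul (FR_pow (bez_quad (by omega) hφ.whφ hφ.ndx) (2 * m + 1)) (FR_quad hc hφ.px he)

/-- (T2') -/
theorem t2' {q r e : ℕ} (hq : q = 2 * r + 1) {ψ : MvPolynomial (Option ι) ℂ}
    (hψ : wh (vx ι) (q + 1) ψ) (hnd : ND ψ) {l : MvPolynomial (Option ι) ℂ} (hl : wh (vx ι) 1 l)
    (he : FR (Ideal.span (Set.range (qR (l ^ 2 - X none) ψ))) e) :
    ∃ φ, wh (vw ι) (q + 1) φ ∧ NDX φ ∧ ND φ ∧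
      FR (I3 (Y ι ^ 2 - Sg ι - 1) (pderiv (some none) φ) φ) e := by
  obtain ⟨φ, hφ⟩ := form2 hq hψ hnd hl
  refine ⟨φ, hφ.whφ, hφ.ndx, hφ.nd, ?_⟩
  obtain ⟨ε, hε, hy⟩ := hφ.py
  rw [hy, I3_C_mul ε hε, I3_unit 1 one_ne_zero (by
    rw [C_1]; exact sub_one_dvd_pow_sub_one _ _)]
  exact FR_lin hφ.px he

/-- the two counts of the level `ι` -/
def QS (ι : Type) [Fintype ι] [DecidableEq ι] (q e : ℕ) : Prop :=
  ∃ ψ l : MvPolynomial (Option ι) ℂ, wh (vx ι) (q + 1) ψ ∧ ND ψ ∧ wh (vx ι) 1 l ∧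
    FR (Ideal.span (Set.range (qR (l ^ 2 - if Even e then 0 else X none) ψ))) e

theorem wh_sq {l : MvPolynomial (Option ι) ℂ} (hl : wh (vx ι) 1 l) (e : ℕ) :
    wh (vx ι) 2 (l ^ 2 - if Even e then 0 else X none) := by
  refine wh_sub (wh_pow hl 2) ?_
  split_ifs
  · exact wh_zero _ _
  · exact wh_X (vx ι) none

/-- all states over a complete level -/
theorem states_of {q s : ℕ} (hq : q = 2 * s + 1) (hs : 1 ≤ s)
    (hQ : ∀ e, e ≤ q ^ Fintype.card ι → QS ι q e) (E : ℕ) (hE : 2 * E ≤ q ^ (Fintype.card ι + 1)) :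
    ∃ φ, St ι q E φ := by
  set N := q ^ Fintype.card ι with hN
  have hNpos : 0 < N := Nat.pow_pos (by omega)
  rw [pow_succ, ← hN] at hE
  by_cases hr : E < s * N
  · have h1 : E / N < s := (Nat.div_lt_iff_lt_mul hNpos).mpr hr
    obtain ⟨ψ, l, h2, h3, h4, h5⟩ := hQ (E % N) (Nat.mod_lt _ hNpos).le
    obtain ⟨φ, hφ⟩ := t1 (q := q) (m := s - 1 - E / N) (r := E / N) (by omega) h2 h3 (wh_sq h4 _) h5
    refine ⟨φ, ?_⟩
    rw [← hN, Nat.div_add_mod'] at hφ
    exact hφ
  · have h0 : 2 * E ≤ (s * N) * 2 + N := by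
      have : N * q = (s * N) * 2 + N := by rw [hq]; ring
      omega
    obtain ⟨ψ, l, h2, h3, h4, h5⟩ := hQ (2 * (E - s * N)) (by omega)
    rw [if_pos (even_two_mul _), sub_zero] at h5
    obtain ⟨φ, hφ⟩ := t1' (q := q) (r := s) hq h2 h3 h4 (FR_half h2 h4 h5)
    refine ⟨φ, ?_⟩
    rw [← hN] at hφ
    have h6 : s * N + (E - s * N) = E := by omega
    rwa [h6] at hφ

theorem qR_option (ρ φ : MvPolynomial (Option (Option ι)) ℂ) :
    Ideal.span (Set.range (qR ρ φ)) = I3 (ρ - 1) (pderiv (some none) φ) φ := by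
  unfold I3
  congr 2
  funext o
  rcases o with _ | _ | i <;> rfl

/-- the odd counts of the next level -/
theorem lvl_odd (hc : C2q ι) {q s : ℕ} (hq : q = 2 * s + 1) (hs : 1 ≤ s)
    (hQ : ∀ e, e ≤ q ^ Fintype.card ι → QS ι q e) (e : ℕ) (hodd : Odd e) (he : e ≤ q ^ (Fintype.card ι + 1)) :
    ∃ φ, wh (vw ι) (q + 1) φ ∧ NDX φ ∧ ND φ ∧
      FR (I3 (Y ι ^ 2 - Sg ι - 1) (pderiv (some none) φ) φ) e := by
  have hne : ¬ Even e := Nat.not_even_iff_odd.mpr hodd
  set N := q ^ Fintype.card ι with hN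
  have hNpos : 0 < N := Nat.pow_pos (by omega)
  have hNodd : Odd N := Odd.pow (by rw [hq]; exact odd_two_mul_add_one s)
  rw [pow_succ, ← hN] at he
  by_cases h1 : e ≤ N
  · obtain ⟨ψ, l, h2, h3, h4, h5⟩ := hQ e h1
    rw [if_neg hne] at h5
    exact t2' hq h2 h3 h4 h5
  · obtain ⟨u, hu⟩ : ∃ u, e = N + 2 * u := by
      obtain ⟨a, ha⟩ := hodd
      obtain ⟨b, hb⟩ := hNodd
      exact ⟨a - b, by omega⟩
    have hNq : N * q = N + 2 * (s * N) := by rw [hq]; ring
    have husN : u ≤ s * N := by omega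
    obtain ⟨m, e', hm, he', hu'⟩ : ∃ m e', m + 1 ≤ s ∧ e' ≤ N ∧ u = m * N + e' := by
      by_cases h2 : u < s * N
      · refine ⟨u / N, u % N, (Nat.div_lt_iff_lt_mul hNpos).mpr h2, (Nat.mod_lt _ hNpos).le, ?_⟩
        exact (Nat.div_add_mod' u N).symm
      · obtain ⟨s', rfl⟩ : ∃ s', s = s' + 1 := ⟨s - 1, by omega⟩
        refine ⟨s', N, le_rfl, le_rfl, ?_⟩
        have : (s' + 1) * N = s' * N + N := by ring
        omega
    obtain ⟨ψ, l, h2, h3, h4, h5⟩ := hQ e' he'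
    obtain ⟨φ, h6, h7, h8, h9⟩ := t2 hc (q := q) (m := m) (r := s - 1 - m) (by omega) h2 h3
      (R := (l ^ 2 - if Even e' then 0 else X none) + X none)
      (wh_add (wh_sq h4 _) (wh_X (vx ι) none)) (by rw [add_sub_cancel_right]; exact h5)
    refine ⟨φ, h6, h7, h8, ?_⟩
    rw [← hN] at h9
    have h10 : (2 * m + 1) * N + 2 * e' = e := by
      rw [hu, hu']; ring
    rwa [h10] at h9

/-- the next level -/
theorem level_up (hc : C2q ι) {q s : ℕ} (hq : q = 2 * s + 1) (hs : 1 ≤ s)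
    (hQ : ∀ e, e ≤ q ^ Fintype.card ι → QS ι q e) (e : ℕ) (he : e ≤ q ^ (Fintype.card ι + 1)) :
    QS (Option ι) q e := by
  have hy1 : wh (vx (Option ι)) 1 (X (some none)) := wh_X (vx (Option ι)) (some none)
  rcases Nat.even_or_odd e with hev | hodd
  · obtain ⟨E, rfl⟩ := hev.two_dvd
    obtain ⟨φ, hφ⟩ := states_of hq hs hQ E he
    refine ⟨φ, X (some none), hφ.wh, hφ.nd, hy1, ?_⟩
    rw [if_pos hev, sub_zero]
    apply FR_dbl (q := q) hφ.wh hy1
    rw [qR_option]
    exact of_st hφ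
  · obtain ⟨φ, h1, _, h2, h3⟩ := lvl_odd hc hq hs hQ e hodd he
    refine ⟨φ, X (some none), h1, h2, hy1, ?_⟩
    rw [if_neg (Nat.not_even_iff_odd.mpr hodd), qR_option]
    exact h3

/-- the level `0` -/
theorem level_zero {q : ℕ} (e : ℕ) (he : e ≤ q ^ Fintype.card Empty) : QS Empty q e := by
  rw [Fintype.card_eq_zero, pow_zero] at he
  have hnd : ND (0 : MvPolynomial (Option Empty) ℂ) := by
    intro p hp _
    funext o
    rcases o with _ | o
    · exact hp
    · exact o.elim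
  refine ⟨0, 0, wh_zero _ _, hnd, wh_zero _ _, ?_⟩
  interval_cases e
  · rw [if_pos (by decide), sub_zero]
    refine cnt_top _ fun p => ⟨(0 : MvPolynomial (Option Empty) ℂ) ^ 2 - 1, Ideal.subset_span ⟨none, rfl⟩, ?_⟩
    simp
  · rw [if_neg (by decide)]
    have h0 : wh (vx Empty) 2 (-X none : MvPolynomial (Option Empty) ℂ) := wh_neg (wh_X (vx Empty) none)
    obtain ⟨h1, h2⟩ := wAff (σ := Option Empty) (w := vx Empty)
      (f := qR ((0 : MvPolynomial (Option Empty) ℂ) ^ 2 - X none) 0) (g := fun _ => -X none) (d := fun _ => 2)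
      (by intro i; rcases i with _ | i <;> simp [vx]) (fun _ => two_pos)
      (fun _ => h0)
      (by
        intro p hp
        funext o
        rcases o with _ | o
        · have := hp none
          simpa using this
        · exact o.elim)
      (by
        intro i
        rcases i with _ | i
        · have h3 : qR ((0 : MvPolynomial (Option Empty) ℂ) ^ 2 - X none) 0 none = -X none + -1 := by
            change (0 : MvPolynomial (Option Empty) ℂ) ^ 2 - X none - 1 = _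
            ring
          rw [h3]
          exact (Top.self h0.wlt).add_lo (wlt_mono (by norm_num) (wlt_neg (wh_one (vx Empty)).wlt))
        · exact i.elim)
    refine ⟨h1, ?_⟩
    simp only [Fintype.prod_option, vx, Option.elim, Finset.univ_eq_empty, Finset.prod_empty, mul_one] at h2
    omega

/-- **(U) for `q` odd**, over some type with `K` elements -/
theorem u_odd' (hc : ∀ ι : Type, C2q ι) {q s : ℕ} (hq : q = 2 * s + 1) (hs : 1 ≤ s) (K : ℕ) :
    ∃ (ι : Type) (_ : Fintype ι) (_ : DecidableEq ι), Fintype.card ι = K ∧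
      ∀ e, e ≤ q ^ K → QS ι q e := by
  induction K with
  | zero =>
    refine ⟨Empty, inferInstance, inferInstance, rfl, fun e he => level_zero e ?_⟩
    rw [Fintype.card_eq_zero]
    exact he
  | succ K ih =>
    obtain ⟨ι, i1, i2, h1, h2⟩ := ih
    subst h1
    refine ⟨Option ι, inferInstance, inferInstance, Fintype.card_option, fun e he => ?_⟩
    exact level_up (hc ι) hq hs h2 e he

end

end EY.UO
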