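import Pool.Agent.helper44.U.Form

set_option autoImplicit false
set_option linter.unusedSectionVars false
set_option linter.unusedSimpArgs false

/-!
# U-Sheet: the two families of forms of the case `q` odd

* `form1` : `φ_y = ε y^(2m+1) (y² - σ)^r (y² - R)`, `φ_x ≡ ψ_x` modulo `y² - R`
* `form2` : `φ_y = ε (y² - σ)^r (y - l)`, `φ_x ≡ ψ_x` modulo `y - l`
-/

namespace EY.UO

open MvPolynomial Filter Topology

noncomputable section

variable {ι : Type} [Fintype ι] [DecidableEq ι]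

/-- the variable `y` -/
abbrev Y (ι : Type) : MvPolynomial (Option (Option ι)) ℂ := X (some none)

/-- the variable `σ` -/
abbrev Sg (ι : Type) : MvPolynomial (Option (Option ι)) ℂ := X none

theorem eval_zero_wh {σ : Type*} [Fintype σ] {v : σ → ℕ} {n : ℕ} {R : MvPolynomial σ ℂ} (h : wh v n R)
    (hn : n ≠ 0) (hv : ∀ i, v i ≠ 0) : eval (0 : σ → ℂ) R = 0 := by
  have h1 := aeval_wh h (0 : ℂ) (0 : σ → ℂ)
  simp only [aeval_eq_eval] at h1
  rw [zero_pow hn, zero_mul] at h1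
  have h2 : (fun i => (0 : ℂ) ^ v i * (0 : σ → ℂ) i) = (0 : σ → ℂ) := by
    funext i
    simp
  rw [h2] at h1
  exact h1

theorem eval_em_zero {n : ℕ} {R : MvPolynomial (Option ι) ℂ} (h : wh (vx ι) n R) (hn : n ≠ 0) (y : ℂ) :
    eval (pt3 0 y (0 : ι → ℂ)) (em R) = 0 := by
  rw [eval_em]
  have h2 : (fun o : Option ι => pt3 0 y (0 : ι → ℂ) (Option.map some o)) = 0 := by
    funext o
    rcases o with _ | o <;> rfl
  rw [h2]
  refine eval_zero_wh h hn ?_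
  intro i
  rcases i with _ | i <;> simp [vx]

/-- the data of a form which carries the sheet `F` -/
structure Carry (q : ℕ) (ψ : MvPolynomial (Option ι) ℂ) (G F φ : MvPolynomial (Option (Option ι)) ℂ) : Prop where
  whφ : wh (vw ι) (q + 1) φ
  ndx : NDX φ
  nd : ND φ
  py : ∃ ε : ℂ, ε ≠ 0 ∧ pderiv (some none) φ = C ε * (G * F)
  px : ∀ i : ι, F ∣ pderiv (some (some i)) φ - em (pderiv (some i) ψ)

theorem mkCarry (Q : MvPolynomial (Option (Option ι)) ℂ → Prop) {q k n : ℕ} (hq0 : q ≠ 0) {ψ : MvPolynomial (Option ι) ℂ} (hψ : wh (vx ι) (q + 1) ψ) (hnd : ND ψ)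
    {P v G : MvPolynomial (Option (Option ι)) ℂ} {ρ : MvPolynomial (Option ι) ℂ}
    (hP : wh (vt ι k) n P) (hv : wh (vw ι) k v) (hρ : wh (vx ι) k ρ) (hn : n + k = q + 1)
    (hP0 : sbY (em ρ) P = 0) (hvx : ∀ i : ι, pderiv (some (some i)) v = 0)
    (hA : sbY v P * pderiv (some none) v = G * (v - em ρ))
    (hA0 : ∀ y : ℂ, eval (pt3 0 y 0) (G * (v - em ρ)) = 1 * y ^ q)
    (hQ : ∀ B : MvPolynomial (Option (Option ι)) ℂ, wh (vw ι) (q + 1) B →
      ∀ᶠ ε in 𝓝 (0 : ℂ), Q (em ψ + C ε * B)) :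
    ∃ φ, Carry q ψ G (v - em ρ) φ ∧ Q φ := by
  have hB : wh (vw ι) (q + 1) (sheetB P v ρ) := wh_sheetB hP hv hρ hn
  have hAB : pderiv (some none) (sheetB P v ρ) = G * (v - em ρ) := by
    rw [pderiv_sheetB_y, hA]
  obtain ⟨ε, hε, h12, hQε⟩ := exists_ne_of_eventually
    ((step_open hψ hnd hB hAB one_ne_zero hq0 hA0).and (hQ _ hB))
  obtain ⟨h1, h2⟩ := h12 hε
  refine ⟨em ψ + C ε * sheetB P v ρ, ⟨wh_add (wh_em1 hψ) (wh_C_mul ε hB), h1, h2, ⟨ε, hε, ?_⟩, ?_⟩, hQε⟩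
  · rw [map_add, pderiv_em_y, pderiv_C_mul, hAB, zero_add]
  · intro i
    rw [map_add, pderiv_em_x, pderiv_C_mul, add_sub_cancel_left]
    exact Dvd.dvd.mul_left (pderiv_sheetB_x hP0 hvx i) _

/-- `φ_y = ε y^(2m+1) (y² - σ)^r (y² - R)`, `φ_x ≡ ψ_x` modulo `y² - R` -/
theorem form1Q (Q : MvPolynomial (Option (Option ι)) ℂ → Prop) {q m r : ℕ} (hq : q = 2 * m + 2 * r + 3)
    {ψ : MvPolynomial (Option ι) ℂ}
    (hψ : wh (vx ι) (q + 1) ψ) (hnd : ND ψ) {R : MvPolynomial (Option ι) ℂ} (hR : wh (vx ι) 2 R)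
    (hQ : ∀ B : MvPolynomial (Option (Option ι)) ℂ, wh (vw ι) (q + 1) B →
      ∀ᶠ ε in 𝓝 (0 : ℂ), Q (em ψ + C ε * B)) :
    ∃ φ, Carry q ψ (Y ι ^ (2 * m + 1) * (Y ι ^ 2 - Sg ι) ^ r) (Y ι ^ 2 - em R) φ ∧ Q φ := by
  refine mkCarry Q (k := 2) (n := 2 * m + 2 * r + 2) (by omega) hψ hnd
    (P := C (1 / 2) * (X (some none) ^ m * (X (some none) - X none) ^ r * (X (some none) - em R)))
    (v := X (some none) ^ 2) (ρ := R) ?_ ?_ hR (by omega) ?_ ?_ ?_ ?_ hQ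
  · apply wh_C_mul
    have h1 : wh (vt ι 2) (2 * m) (X (some none) ^ m : MvPolynomial (Option (Option ι)) ℂ) :=
      wh_pow (wh_X (vt ι 2) (some none)) m
    have h2 : wh (vt ι 2) (2 * r) ((X (some none) - X none) ^ r : MvPolynomial (Option (Option ι)) ℂ) :=
      wh_pow (wh_sub (wh_X (vt ι 2) (some none)) (wh_X (vt ι 2) none)) r
    have h3 : wh (vt ι 2) 2 (X (some none) - em R : MvPolynomial (Option (Option ι)) ℂ) :=
      wh_sub (wh_X (vt ι 2) (some none)) (wh_em hR 2)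
    exact wh_mul (wh_mul h1 h2) h3
  · have h1 := wh_pow (wh_X (vw ι) (some none)) 2
    exact h1
  · simp
  · intro i
    rw [Derivation.leibniz_pow, pderiv_X, Pi.single_eq_of_ne (by simp)]
    simp
  · rw [Derivation.leibniz_pow, pderiv_X_self]
    simp only [map_mul, map_pow, map_sub, sbY_C, sbY_y, sbY_s, sbY_em]
    have hC : (C (1 / 2) : MvPolynomial (Option (Option ι)) ℂ) * 2 = 1 := by
      rw [show (2 : MvPolynomial (Option (Option ι)) ℂ) = C 2 by rw [map_ofNat], ← C_mul]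
      norm_num
    simp only [Nat.add_one_sub_one, pow_one, nsmul_eq_mul, Nat.cast_ofNat, smul_eq_mul, mul_one]
    linear_combination ((X (some none) ^ 2) ^ m * (X (some none) ^ 2 - X none) ^ r *
      (X (some none) ^ 2 - em R) * X (some none)) * hC
  · intro y
    simp only [map_mul, map_pow, map_sub, eval_X, eval_em_zero hR two_ne_zero]
    simp only [pt3, Option.elim, sub_zero]
    rw [hq]
    ring

theorem form1 {q m r : ℕ} (hq : q = 2 * m + 2 * r + 3) {ψ : MvPolynomial (Option ι) ℂ}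
    (hψ : wh (vx ι) (q + 1) ψ) (hnd : ND ψ) {R : MvPolynomial (Option ι) ℂ} (hR : wh (vx ι) 2 R) :
    ∃ φ, Carry q ψ (Y ι ^ (2 * m + 1) * (Y ι ^ 2 - Sg ι) ^ r) (Y ι ^ 2 - em R) φ := by
  obtain ⟨φ, h, _⟩ := form1Q (fun _ => True) hq hψ hnd hR fun _ _ => Eventually.of_forall fun _ => trivial
  exact ⟨φ, h⟩

/-- `φ_y = ε y^a (y² - σ)^r (y - l)`, `φ_x ≡ ψ_x` modulo `y - l` -/
theorem form2Q (Q : MvPolynomial (Option (Option ι)) ℂ → Prop) {q a r : ℕ} (hq : q = a + 2 * r + 1)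
    {ψ : MvPolynomial (Option ι) ℂ}
    (hψ : wh (vx ι) (q + 1) ψ) (hnd : ND ψ) {l : MvPolynomial (Option ι) ℂ} (hl : wh (vx ι) 1 l)
    (hQ : ∀ B : MvPolynomial (Option (Option ι)) ℂ, wh (vw ι) (q + 1) B →
      ∀ᶠ ε in 𝓝 (0 : ℂ), Q (em ψ + C ε * B)) :
    ∃ φ, Carry q ψ (Y ι ^ a * (Y ι ^ 2 - Sg ι) ^ r) (Y ι - em l) φ ∧ Q φ := by
  refine mkCarry Q (k := 1) (n := a + 2 * r + 1) (by omega) hψ hnd
    (P := X (some none) ^ a * (X (some none) ^ 2 - X none) ^ r * (X (some none) - em l))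
    (v := X (some none)) (ρ := l) ?_ (wh_X (vw ι) (some none)) hl (by omega) ?_ ?_ ?_ ?_ hQ
  · have h1 : wh (vt ι 1) a (X (some none) ^ a : MvPolynomial (Option (Option ι)) ℂ) := by
      have := wh_pow (wh_X (vt ι 1) (some none)) a
      have h4 : vt ι 1 (some none) * a = a := by simp [vt]
      rwa [h4] at this
    have h2 : wh (vt ι 1) (2 * r) ((X (some none) ^ 2 - X none) ^ r : MvPolynomial (Option (Option ι)) ℂ) :=
      wh_pow (wh_sub (wh_pow (wh_X (vt ι 1) (some none)) 2) (wh_X (vt ι 1) none)) r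
    have h3 : wh (vt ι 1) 1 (X (some none) - em l : MvPolynomial (Option (Option ι)) ℂ) :=
      wh_sub (wh_X (vt ι 1) (some none)) (wh_em hl 1)
    exact wh_mul (wh_mul h1 h2) h3
  · simp
  · intro i
    rw [pderiv_X, Pi.single_eq_of_ne (by simp)]
  · rw [pderiv_X_self]
    simp only [map_mul, map_pow, map_sub, sbY_C, sbY_y, sbY_s, sbY_em, mul_one]
  · intro y
    simp only [map_mul, map_pow, map_sub, eval_X, eval_em_zero hl one_ne_zero]
    simp only [pt3, Option.elim, sub_zero]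
    rw [hq]
    ring

/-- `φ_y = ε (y² - σ)^r (y - l)`, `φ_x ≡ ψ_x` modulo `y - l` -/
theorem form2 {q r : ℕ} (hq : q = 2 * r + 1) {ψ : MvPolynomial (Option ι) ℂ}
    (hψ : wh (vx ι) (q + 1) ψ) (hnd : ND ψ) {l : MvPolynomial (Option ι) ℂ} (hl : wh (vx ι) 1 l) :
    ∃ φ, Carry q ψ ((Y ι ^ 2 - Sg ι) ^ r) (Y ι - em l) φ := by
  obtain ⟨φ, h, _⟩ := form2Q (fun _ => True) (a := 0) (by omega : q = 0 + 2 * r + 1) hψ hnd hl
    fun _ _ => Eventually.of_forall fun _ => trivial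
  rw [pow_zero, one_mul] at h
  exact ⟨φ, h⟩

end

end EY.UO
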