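import Pool.Agent.helper44.U.UOdd
import Pool.Agent.helper51.EY.ZSt

set_option autoImplicit false
set_option linter.unusedSectionVars false
set_option linter.unusedSimpArgs false

/-!
# U-T1S: the states `u3`, `u5a`, `u5e`, `u5o` of helper51's `ZUA`
-/

namespace EY.UO

open MvPolynomial Filter Topology

noncomputable section

/-! ### transport of `QS` -/

section tr

variable {ι ι' : Type} [Fintype ι] [Fintype ι'] [DecidableEq ι] [DecidableEq ι'] (e : ι ≃ ι')

theorem pderiv_tr0 (ψ : MvPolynomial (Option ι) ℂ) (i : ι) :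
    pderiv (some (e i)) (rename (Equiv.optionCongr e) ψ) = rename (Equiv.optionCongr e) (pderiv (some i) ψ) := by
  have h : (some (e i) : Option ι') = Equiv.optionCongr e (some i) := rfl
  rw [h, pderiv_rename (Equiv.optionCongr e).injective]

include e in
theorem QS.congr {q n : ℕ} (h : QS ι q n) : QS ι' q n := by
  obtain ⟨ψ, l, h1, h2, h3, h4⟩ := h
  have hv : ∀ i, vx ι' (Equiv.optionCongr e i) = vx ι i := by
    intro i; rcases i with _ | i <;> rfl
  refine ⟨rename (Equiv.optionCongr e) ψ, rename (Equiv.optionCongr e) l, wh_renameEquiv _ hv h1, ?_,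
    wh_renameEquiv _ hv h3, ?_⟩
  · intro p hp hx
    have h5 := h2 (fun o => p (Equiv.optionCongr e o)) hp (by
      intro i
      have h6 := hx (e i)
      rw [pderiv_tr0, eval_rename] at h6
      exact h6)
    funext o
    have h6 := congrFun h5 ((Equiv.optionCongr e).symm o)
    simp only [Equiv.apply_symm_apply] at h6
    exact h6
  · have key : Ideal.span (Set.range (qR (rename (Equiv.optionCongr e) l ^ 2 - if Even n then 0 else X none)
        (rename (Equiv.optionCongr e) ψ))) =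
        (Ideal.span (Set.range (qR (l ^ 2 - if Even n then 0 else X none) ψ))).map
          (renameEquiv ℂ (Equiv.optionCongr e) : _ →+* _) := by
      rw [Ideal.map_span, ← Set.range_comp]
      congr 1
      have e1 : rename (Equiv.optionCongr e) (l ^ 2 - (if Even n then 0 else X none) - 1) =
          rename (Equiv.optionCongr e) l ^ 2 - (if Even n then 0 else X none) - 1 := by
        rw [map_sub, map_sub, map_pow, map_one]
        congr 2
        split_ifs
        · exact map_zero _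
        · rw [rename_X]; rfl
      ext z
      constructor
      · rintro ⟨o, rfl⟩
        rcases o with _ | i
        · exact ⟨none, e1⟩
        · refine ⟨some (e.symm i), ?_⟩
          have := pderiv_tr0 e ψ (e.symm i)
          rw [Equiv.apply_symm_apply] at this
          exact this.symm
      · rintro ⟨o, rfl⟩
        rcases o with _ | i
        · exact ⟨none, e1.symm⟩
        · exact ⟨some (e i), pderiv_tr0 e ψ i⟩
    have e2 := Ideal.quotientEquivAlg _ _ (renameEquiv ℂ (Equiv.optionCongr e)) key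
    have := h4.1
    exact ⟨Module.Finite.equiv e2.toLinearEquiv, by rw [← e2.toLinearEquiv.finrank_eq]; exact h4.2⟩

end tr

theorem qs_all {q s : ℕ} (hq : q = 2 * s + 1) (hs : 1 ≤ s) (K e : ℕ) (he : e ≤ q ^ K) : QS (Fin K) q e := by
  obtain ⟨ι, i1, i2, h1, h2⟩ := u_odd' c2q hq hs K
  subst h1
  exact QS.congr (Fintype.equivFin ι) (h2 e he)

/-! ### states with a linear and with a quadric sheet -/

section st

variable {ι : Type} [Fintype ι] [DecidableEq ι]

theorem lin_state (Q : MvPolynomial (Option (Option ι)) ℂ → Prop) {q a r e : ℕ} (hq : q = a + 2 * r + 1)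
    {ψ : MvPolynomial (Option ι) ℂ}
    (hψ : wh (vx ι) (q + 1) ψ) (hnd : ND ψ) {l : MvPolynomial (Option ι) ℂ} (hl : wh (vx ι) 1 l)
    (he : FR (Ideal.span (Set.range (qR l ψ))) e)
    (hQ : ∀ B : MvPolynomial (Option (Option ι)) ℂ, wh (vw ι) (q + 1) B →
      ∀ᶠ ε in 𝓝 (0 : ℂ), Q (em ψ + C ε * B)) :
    ∃ φ, Carry q ψ (Y ι ^ a * (Y ι ^ 2 - Sg ι) ^ r) (Y ι - em l) φ ∧ Q φ ∧
      St ι q (r * q ^ Fintype.card ι + e) φ := by
  obtain ⟨φ, hφ, hφQ⟩ := form2Q Q hq hψ hnd hl hQ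
  refine ⟨φ, hφ, hφQ, st_of hφ.whφ hφ.ndx hφ.nd ?_⟩
  obtain ⟨ε, hε, hy⟩ := hφ.py
  rw [hy, I3_C_mul ε hε, mul_assoc, I3_unit 1 one_ne_zero (by
    rw [C_1]; exact sub_one_dvd_pow_sub_one _ _)]
  refine FR_mul (FR_pow (bez_one (by omega) hφ.whφ hφ.ndx) r) (FR_one hφ.px ?_ he)
  simp only [map_sub, elimY_y]
  congr 1
  exact elimY_rename 1 l

theorem quad_state (Q : MvPolynomial (Option (Option ι)) ℂ → Prop) {q m r e : ℕ} (hq : q = 2 * m + 2 * r + 3)
    {ψ : MvPolynomial (Option ι) ℂ}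
    (hψ : wh (vx ι) (q + 1) ψ) (hnd : ND ψ) {R : MvPolynomial (Option ι) ℂ} (hR : wh (vx ι) 2 R)
    (he : FR (Ideal.span (Set.range (qR R ψ))) e)
    (hQ : ∀ B : MvPolynomial (Option (Option ι)) ℂ, wh (vw ι) (q + 1) B →
      ∀ᶠ ε in 𝓝 (0 : ℂ), Q (em ψ + C ε * B)) :
    ∃ φ, Carry q ψ (Y ι ^ (2 * m + 1) * (Y ι ^ 2 - Sg ι) ^ r) (Y ι ^ 2 - em R) φ ∧ Q φ ∧
      St ι q (r * q ^ Fintype.card ι + e) φ := by
  obtain ⟨φ, hφ, hφQ⟩ := form1Q Q hq hψ hnd hR hQ
  refine ⟨φ, hφ, hφQ, st_of hφ.whφ hφ.ndx hφ.nd ?_⟩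
  obtain ⟨ε, hε, hy⟩ := hφ.py
  rw [hy, I3_C_mul ε hε, mul_assoc, I3_unit 1 one_ne_zero (by
    rw [C_1]; exact sub_one_dvd_pow_sub_one _ _)]
  refine FR_mul (FR_pow (bez_one (by omega) hφ.whφ hφ.ndx) r) (FR_one hφ.px ?_ he)
  simp only [map_sub, map_pow, elimY_y, one_pow]
  congr 1
  exact elimY_rename 1 R

end st

/-! ### the condition `nz` -/

section nz

variable {ρ : Type} [Fintype ρ] [DecidableEq ρ]

/-- `φ(0; 0, 0, z)` is nonsingular -/
def NZ (φ : MvPolynomial (Option (Option (Option ρ))) ℂ) : Prop :=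
  ∀ z : ρ → ℂ, (∀ r, eval (zpt 0 0 0 z) (pderiv (some (some (some r))) φ) = 0) → z = 0

theorem nz_open {q : ℕ} {ψ : MvPolynomial (Option (Option ρ)) ℂ} (hψ : wh (vx (Option ρ)) (q + 1) ψ)
    (hndx : NDX ψ) (B : MvPolynomial (Option (Option (Option ρ))) ℂ) (hB : wh (vw (Option ρ)) (q + 1) B) :
    ∀ᶠ ε in 𝓝 (0 : ℂ), NZ (em ψ + C ε * B) := by
  have hBx : ∀ r : ρ, wh (vw (Option ρ)) q (pderiv (some (some (some r))) B) := fun r => wh_pderiv hB _ q rfl
  have hψx : ∀ r : ρ, wh (vw (Option ρ)) q (em (pderiv (some (some r)) ψ)) := by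
    intro r
    apply wh_em1
    exact wh_pderiv hψ _ q rfl
  have hsc : ∀ {F : MvPolynomial (Option (Option (Option ρ))) ℂ}, wh (vw (Option ρ)) q F →
      ∀ (c : ℂ) (z : ρ → ℂ), eval (zpt 0 0 0 (c • z)) F = c ^ q * eval (zpt 0 0 0 z) F := by
    intro F hF c z
    have h1 := eval_scale hF c 0 (fun o : Option ρ => o.elim 0 z)
    refine Eq.trans ?_ h1
    congr 2
    funext o
    rcases o with _ | _ | _ | o
    · rfl
    · simp [zpt, vec, pt3]
    · simp [zpt, vec, pt3]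
    · simp [zpt, vec, pt3]
  have h2 : ∀ᶠ t in 𝓝 (0 : ℂ), ∀ z : ρ → ℂ, (∀ r : ρ,
      eval (zpt 0 0 0 z) (em (pderiv (some (some r)) ψ)) +
        t * eval (zpt 0 0 0 z) (pderiv (some (some (some r))) B) = 0) → z = 0 := by
    refine open_zero (fun (r : ρ) (t : ℂ) (z : ρ → ℂ) =>
      eval (zpt 0 0 0 z) (em (pderiv (some (some r)) ψ)) +
        t * eval (zpt 0 0 0 z) (pderiv (some (some (some r))) B)) (fun _ => q) ?_ ?_ 0 ?_
    · intro r
      have hz : Continuous fun w : ℂ × (ρ → ℂ) => (fun o : Option ρ => o.elim 0 w.2 : Option ρ → ℂ) := by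
        apply continuous_pi
        intro o
        rcases o with _ | o
        · exact continuous_const
        · exact (continuous_apply o).comp continuous_snd
      exact (cont_pt3 continuous_const continuous_const hz _).add
          (continuous_fst.mul (cont_pt3 continuous_const continuous_const hz _))
    · intro r t c z
      rw [hsc (hψx r), hsc (hBx r)]
      ring
    · intro z hz
      have h3 := hndx (fun o : Option (Option ρ) => zpt 0 0 0 z (Option.map some o)) rfl rfl (by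
        intro r
        rw [← eval_em]
        have := hz r
        simp only [zero_mul, add_zero] at this
        exact this)
      funext r
      exact congrFun h3 (some (some r))
  filter_upwards [h2] with ε hε z hz
  apply hε
  intro r
  have h3 := hz r
  rw [map_add, pderiv_em_x, pderiv_C_mul, map_add, map_mul, eval_C] at h3
  exact h3

end nz

end

end EY.UO

namespace EY

open MvPolynomial UO

noncomputable section

theorem t1s_lin {q a s : ℕ} (hqs : q = 2 * s + 1) (hs : 1 ≤ s) (ha : q = a + 2 + 1) (K E : ℕ)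
    (h1 : q ^ (K + 1) ≤ E) (h2 : 2 * E ≤ 3 * q ^ (K + 1)) :
    ∃ φ : MvPolynomial (Option (Option (Option (Fin K)))) ℂ, T1St (Fin K) q E 1 φ := by
  obtain ⟨ψ, hψ⟩ := u_odd ⟨s, hqs⟩ (by omega) K (E - q ^ (K + 1)) (by omega)
  have hl : wh (vx (Option (Fin K))) 1 (X (some none)) := wh_X (vx (Option (Fin K))) (some none)
  have hψ1 : wh (vx (Option (Fin K))) (q + 1) ψ := hψ.wh
  have hψ2 : ND (ι := Option (Fin K)) ψ := hψ.nd
  have hψ3 : NDX (ι := Fin K) ψ := hψ.ndx
  obtain ⟨φ, h3, h4, h5⟩ := lin_state (ι := Option (Fin K)) NZ (q := q) (a := a) (r := 1)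
    (e := E - q ^ (K + 1)) (by omega) hψ1 hψ2 hl (by
      rw [qR_option]
      exact of_st hψ) (nz_open hψ1 hψ3)
  obtain ⟨ε, hε, hy⟩ := h3.py
  have hcard : Fintype.card (Option (Fin K)) = K + 1 := by simp
  rw [hcard, one_mul] at h5
  have hE : q ^ (K + 1) + (E - q ^ (K + 1)) = E := by omega
  rw [hE] at h5
  refine ⟨φ, h5, ⟨-ε, a + 1, fun _ => 1, -(C ε * (X (some none) ^ a * (X (some none) ^ 2 - X none))),
    neg_ne_zero.mpr hε, fun _ => one_ne_zero, by omega, ?_⟩, h4⟩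
  rw [hy, Fin.prod_univ_one, em_some, C_1]
  simp only [map_neg]
  ring

theorem u3' (K E : ℕ) (h1 : 3 ^ (K + 1) ≤ E) (h2 : 2 * E ≤ 3 ^ (K + 2)) :
    ∃ φ : MvPolynomial (Option (Option (Option (Fin K)))) ℂ, T1St (Fin K) 3 E 1 φ :=
  t1s_lin (q := 3) (s := 1) (a := 0) rfl le_rfl rfl K E h1 (by rw [pow_succ 3 (K + 1)] at h2; omega)

theorem u5a' (K E : ℕ) (h1 : 5 ^ (K + 1) ≤ E) (h2 : 2 * E ≤ 3 * 5 ^ (K + 1)) :
    ∃ φ : MvPolynomial (Option (Option (Option (Fin K)))) ℂ, T1St (Fin K) 5 E 1 φ :=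
  t1s_lin (q := 5) (s := 2) (a := 2) rfl (by norm_num) rfl K E h1 h2

theorem u5e' (K e : ℕ) (h1 : Even e) (h2 : e ≤ 5 ^ (K + 1)) :
    ∃ φ : MvPolynomial (Option (Option (Option (Fin K)))) ℂ, T1St (Fin K) 5 (5 ^ (K + 1) + e) 1 φ := by
  obtain ⟨E, rfl⟩ := h1.two_dvd
  obtain ⟨ψ, hψ⟩ := u_odd (q := 5) ⟨2, rfl⟩ (by omega) K E h2
  have hl : wh (vx (Option (Fin K))) 1 (X (some none)) := wh_X (vx (Option (Fin K))) (some none)
  have hψ1 : wh (vx (Option (Fin K))) (5 + 1) ψ := hψ.wh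
  have hψ2 : ND (ι := Option (Fin K)) ψ := hψ.nd
  have hψ3 : NDX (ι := Fin K) ψ := hψ.ndx
  obtain ⟨φ, h3, h4, h5⟩ := quad_state (ι := Option (Fin K)) NZ (q := 5) (m := 0) (r := 1)
    (e := 2 * E) (R := X (some none) ^ 2) (by omega) hψ1 hψ2 (wh_pow hl 2) (by
      apply FR_dbl (q := 5) hψ1 hl
      rw [qR_option]
      exact of_st hψ) (nz_open hψ1 hψ3)
  obtain ⟨ε, hε, hy⟩ := h3.py
  have hcard : Fintype.card (Option (Fin K)) = K + 1 := by simp
  rw [hcard, one_mul] at h5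
  refine ⟨φ, h5, ⟨-ε, 3, fun _ => 1, -(C ε * (X (some none) * (X (some none) ^ 2 - X none) *
    X (some (some none)))), neg_ne_zero.mpr hε, fun _ => one_ne_zero, rfl, ?_⟩, h4⟩
  rw [hy, Fin.prod_univ_one, map_pow, em_some, C_1]
  simp only [map_neg]
  ring

theorem u5o' (K e : ℕ) (h1 : Odd e) (h2 : e ≤ 5 ^ (K + 1)) :
    ∃ φ : MvPolynomial (Option (Option (Option (Fin K)))) ℂ, T1St (Fin K) 5 (5 ^ (K + 1) + e) 2 φ := by
  have hcK : Fintype.card (Fin K) = K := Fintype.card_fin K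
  obtain ⟨ψ, hψ1, hψ3, hψ2, hψ4⟩ := lvl_odd (ι := Fin K) (c2q _) (q := 5) (s := 2) rfl (by norm_num)
    (by rw [hcK]; exact fun e he => qs_all (s := 2) rfl (by norm_num) K e he) e h1 (by rw [hcK]; exact h2)
  have hψ1' : wh (vx (Option (Fin K))) (5 + 1) ψ := hψ1
  have hl : wh (vx (Option (Fin K))) 1 (X (some none)) := wh_X (vx (Option (Fin K))) (some none)
  obtain ⟨φ, h3, h4, h5⟩ := quad_state (ι := Option (Fin K)) NZ (q := 5) (m := 0) (r := 1)
    (e := e) (R := X (some none) ^ 2 - X none) (by omega) hψ1' hψ2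
    (wh_sub (wh_pow hl 2) (wh_X (vx (Option (Fin K))) none)) (by
      rw [qR_option]
      exact hψ4) (nz_open hψ1' hψ3)
  obtain ⟨ε, hε, hy⟩ := h3.py
  have hcard : Fintype.card (Option (Fin K)) = K + 1 := by simp
  rw [hcard, one_mul] at h5
  refine ⟨φ, h5, ⟨-ε, 1, ![1, -1], -(C ε * (X (some none) * (X (some none) ^ 2 - X none) *
    X (some (some none)))), neg_ne_zero.mpr hε, fun i => by fin_cases i <;> simp, rfl, ?_⟩, h4⟩
  rw [hy, Fin.prod_univ_two, map_sub, map_pow, em_some, em_none]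
  simp only [Matrix.cons_val_zero, Matrix.cons_val_one, map_neg, C_1]
  ring

end

end EY
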