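import Pool.Agent.helper44.U.Odd
import Pool.Agent.helper50.EY.CntQ
import Pool.Agent.helper46.U.Tran

set_option autoImplicit false
set_option linter.unusedSectionVars false

/-!
# U-UOdd: **(U) for `q` odd**
-/

namespace EY

open MvPolynomial UO

theorem UO.c2q (ι : Type) : UO.C2q ι := by
  intro c g n h
  have h1 := cnt_quad_finite c g h.1
  have h2 := cnt_quad_finrank c g h.1
  exact ⟨h1, by rw [← h.2]; exact h2⟩

/-- (U) for `q` odd: all states with `E ≤ q^(K+1)/2` -/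
theorem u_odd {q : ℕ} (hodd : Odd q) (hq : 2 ≤ q) (K E : ℕ) (hE : 2 * E ≤ q ^ (K + 1)) :
    ∃ φ : MvPolynomial (Option (Option (Fin K))) ℂ, St (Fin K) q E φ := by
  obtain ⟨s, hs⟩ := hodd
  obtain ⟨ι, i1, i2, h1, h2⟩ := UO.u_odd' UO.c2q hs (by omega) K
  subst h1
  obtain ⟨φ, hφ⟩ := UO.states_of hs (by omega) h2 E hE
  exact ⟨tr (Fintype.equivFin ι) φ, hφ.congr _⟩

end EY
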